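import Pool.Agent.Lib.Gkp.Spec

/-!
# Projective automorphisms (MP_16b755_an): averages of holomorphic functions
-/

set_option autoImplicit false

open Filter Topology Metric Asymptotics

namespace Gkp

namespace AvgM

theorem key (G : ℂ → ℂ) (ε L : ℝ) (m : ℕ) (hε : 0 < ε) (hG : DifferentiableOn ℂ G (ball 0 ε))
    (h0 : G 0 = 0)
    (h : (fun z : ℂ => (G z).re + L * ‖z‖ ^ (2 * m)) =o[𝓝 0] (fun z : ℂ => ‖z‖ ^ (2 * m))) :
    L ≤ 0 := by
  by_contra hL
  push Not at hL
  have h1 : ∀ᶠ z : ℂ in 𝓝 0, (G z).re ≤ -(L / 2) * ‖z‖ ^ (2 * m) := by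
    filter_upwards [h.bound (half_pos hL)] with z hz
    rw [Real.norm_eq_abs, norm_pow, norm_norm] at hz
    have h2 := (abs_le.1 hz).2
    nlinarith
  have h2 : ∀ᶠ z : ℂ in 𝓝 0, DifferentiableAt ℂ (fun z => Complex.exp (G z)) z := by
    filter_upwards [isOpen_ball.mem_nhds (mem_ball_self hε)] with z hz
    exact ((hG z hz).differentiableAt (isOpen_ball.mem_nhds hz)).cexp
  have h3 : IsLocalMax (norm ∘ fun z => Complex.exp (G z)) 0 := by
    filter_upwards [h1] with z hz
    simp only [Function.comp_apply, Complex.norm_exp, h0, Complex.zero_re]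
    refine Real.exp_le_exp.2 (hz.trans ?_)
    have : 0 ≤ L / 2 * ‖z‖ ^ (2 * m) := by positivity
    linarith
  have h4 := Complex.eventually_eq_of_isLocalMax_norm h2 h3
  have h5 : ∀ᶠ z : ℂ in 𝓝[≠] 0, False := by
    filter_upwards [h4.filter_mono nhdsWithin_le_nhds, h1.filter_mono nhdsWithin_le_nhds,
      self_mem_nhdsWithin] with z hz1 hz2 hz3
    have h6 : (G z).re = 0 := by
      have h7 := congrArg norm hz1
      simp only [Complex.norm_exp, h0, Complex.zero_re] at h7
      exact Real.exp_injective h7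
    rw [h6] at hz2
    have h8 : 0 < ‖z‖ := norm_pos_iff.2 hz3
    have h9 : 0 < L / 2 * ‖z‖ ^ (2 * m) := by positivity
    linarith
  exact h5.exists.elim fun _ h => h

end AvgM

open AvgM

theorem pAvg : S_Avg := by
  intro H ε α L m hε hH h0 hm h
  have hd : DifferentiableOn ℂ (fun z => H z + α * z ^ (2 * m)) (ball 0 ε) :=
    hH.add ((differentiable_id.pow (2 * m)).const_mul α).differentiableOn
  have h00 : H 0 + α * (0 : ℂ) ^ (2 * m) = 0 := by
    rw [h0, zero_pow (by omega), mul_zero, add_zero]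
  refine le_antisymm ?_ ?_
  · refine key (fun z => H z + α * z ^ (2 * m)) ε L m hε hd h00 ?_
    refine h.congr_left fun z => ?_
    simp only [Complex.add_re]
    ring
  · have h1 := key (fun z => -(H z + α * z ^ (2 * m))) ε (-L) m hε hd.neg (by rw [h00, neg_zero]) ?_
    · linarith
    · refine h.neg_left.congr_left fun z => ?_
      simp only [Complex.add_re, Complex.neg_re]
      ring

end Gkp
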