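import Pool.Agent.Lib.Gkp.Spec

/-!
# Projective automorphisms (MP_16b755_an), module Bj
-/

set_option autoImplicit false

open Filter Topology Metric Asymptotics

namespace Gkp

namespace BjM

variable {n : ℕ}

theorem aff_add (Y : V n) (a : ℂ) (e : E n) :
    aff (Y + a • ((0 : ℂ), e)) = aff Y + (Y.1⁻¹ * a) • e := by
  simp only [aff, Prod.fst_add, Prod.snd_add, Prod.smul_fst, Prod.smul_snd, smul_eq_mul, mul_zero,
    add_zero, smul_add, smul_smul]

end BjM

open BjM

theorem pBj : S_Bj := by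
  intro n r y l hr hl Y Y₀ s c e hY hY0 hy hs hsinf
  have hstr : HasStrictFDerivAt r (fderiv ℝ r y) y :=
    (hr.contDiffAt (x := y)).hasStrictFDerivAt (by norm_num)
  have hinv : Tendsto (fun j => c / (s j : ℂ)) atTop (𝓝 0) := by
    have h1 : Tendsto (fun j => (s j)⁻¹) atTop (𝓝 0) := tendsto_inv_atTop_zero.comp hsinf
    have h2 : Tendsto (fun j => (((s j)⁻¹ : ℝ) : ℂ)) atTop (𝓝 ((0 : ℝ) : ℂ)) :=
      (Complex.continuous_ofReal.tendsto 0).comp h1
    have h3 := h2.const_mul c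
    rw [Complex.ofReal_zero, mul_zero] at h3
    refine h3.congr fun j => ?_
    rw [Complex.ofReal_inv, div_eq_mul_inv]
  have hx : Tendsto (fun j => aff (Y j)) atTop (𝓝 y) := by
    rw [← hy]
    exact (continuousAt_aff hY0).tendsto.comp hY
  have hx' : Tendsto (fun j => aff (Y j + (c / s j) • ((0 : ℂ), e))) atTop (𝓝 y) := by
    have h1 : Tendsto (fun j => Y j + (c / (s j : ℂ)) • ((0 : ℂ), e)) atTop (𝓝 Y₀) := by
      have h2 := hY.add (hinv.smul_const ((0 : ℂ), e))
      rw [zero_smul, add_zero] at h2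
      exact h2
    have h3 := (continuousAt_aff hY0).tendsto.comp h1
    rw [hy] at h3
    exact h3
  have hd : ∀ j, aff (Y j + (c / s j) • ((0 : ℂ), e)) - aff (Y j) =
      ((Y j).1⁻¹ * (c / s j)) • e := by
    intro j
    rw [aff_add, add_sub_cancel_left]
  have hsd : ∀ j, s j • (((Y j).1⁻¹ * (c / s j)) • e) = ((Y j).1⁻¹ * c) • e := by
    intro j
    have h1 : (s j : ℂ) ≠ 0 := by exact_mod_cast (hs j).ne'
    have h2 : s j • (((Y j).1⁻¹ * (c / s j)) • e) = ((s j : ℂ)) • (((Y j).1⁻¹ * (c / s j)) • e) :=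
      (Complex.coe_smul (s j) _).symm
    rw [h2, smul_smul]
    congr 1
    field_simp
  have hlim : Tendsto (fun j => ((Y j).1⁻¹ * c) • e) atTop (𝓝 ((Y₀.1⁻¹ * c) • e)) := by
    have h1 : Tendsto (fun j => (Y j).1) atTop (𝓝 Y₀.1) := (continuous_fst.tendsto Y₀).comp hY
    exact ((h1.inv₀ hY0).mul_const c).smul_const e
  have hlo : (fun j => r (aff (Y j + (c / s j) • ((0 : ℂ), e))) - r (aff (Y j)) -
      fderiv ℝ r y (((Y j).1⁻¹ * (c / s j)) • e)) =o[atTop]
      fun j => ((Y j).1⁻¹ * (c / s j)) • e := by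
    have h1 := hstr.isLittleO.comp_tendsto (hx'.prodMk_nhds hx)
    refine (h1.congr_left fun j => ?_).congr_right fun j => ?_
    · simp only [Function.comp_apply]
      rw [hd]
    · simp only [Function.comp_apply]
      rw [hd]
  have hlo2 : Tendsto (fun j => s j * (r (aff (Y j + (c / s j) • ((0 : ℂ), e))) - r (aff (Y j)) -
      fderiv ℝ r y (((Y j).1⁻¹ * (c / s j)) • e))) atTop (𝓝 0) := by
    have h1 := (isBigO_refl s atTop).smul_isLittleO hlo
    have h2 : (fun j => s j • (((Y j).1⁻¹ * (c / s j)) • e)) =O[atTop] fun _ => (1 : ℝ) := by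
      simp only [hsd]
      exact hlim.isBigO_one ℝ
    exact (isLittleO_one_iff ℝ).1 (h1.trans_isBigO h2)
  have hlin : Tendsto (fun j => fderiv ℝ r y (((Y j).1⁻¹ * c) • e)) atTop
      (𝓝 ((c * l e / Y₀.1).re)) := by
    have h1 := ((fderiv ℝ r y).continuous.tendsto ((Y₀.1⁻¹ * c) • e)).comp hlim
    have h2 : fderiv ℝ r y ((Y₀.1⁻¹ * c) • e) = (c * l e / Y₀.1).re := by
      rw [← hl, map_smul, smul_eq_mul]
      congr 1
      field_simp
    rw [h2] at h1
    exact h1
  have hfin := hlo2.add hlin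
  rw [zero_add] at hfin
  refine hfin.congr fun j => ?_
  have h1 : fderiv ℝ r y (s j • (((Y j).1⁻¹ * (c / s j)) • e)) =
      s j * fderiv ℝ r y (((Y j).1⁻¹ * (c / s j)) • e) := by
    rw [(fderiv ℝ r y).map_smul (s j) (((Y j).1⁻¹ * (c / s j)) • e), smul_eq_mul]
  rw [← hsd j, h1]
  ring

end Gkp
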