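import Mathlib

/-!
# Projective automorphisms of smoothly bounded domains (MP_16b755_an): definitions

`E n` is `ℂ^n`, `V n = ℂ × ℂ^n` carries the linear maps which induce the projective maps of `ℂ^n`.
-/

set_option autoImplicit false

open Filter Topology

namespace Gkp

/-- `ℂ^n`. -/
abbrev E (n : ℕ) : Type := EuclideanSpace ℂ (Fin n)

/-- The homogeneous coordinates `(X₀, X')`. -/
abbrev V (n : ℕ) : Type := ℂ × E n

/-- The point of `ℂ^n` with homogeneous coordinates `X`. -/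
noncomputable def aff {n : ℕ} (X : V n) : E n := X.1⁻¹ • X.2

/-- The cone over `Ω`. -/
def Cone {n : ℕ} (Ω : Set (E n)) : Set (V n) := {X | X.1 ≠ 0 ∧ aff X ∈ Ω}

/-- A bounded open set with a `C²` defining function. -/
structure Dom {n : ℕ} (Ω : Set (E n)) (r : E n → ℝ) (C₀ : ℝ) : Prop where
  ne : Ω.Nonempty
  bd : ∀ x ∈ Ω, ‖x‖ ≤ C₀
  sm : ContDiff ℝ 2 r
  eq : Ω = {x | r x < 0}
  gr : ∀ x ∈ frontier Ω, fderiv ℝ r x ≠ 0

/-- `l` is the complex linear functional with real part `dr_y`. -/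
def Cl {n : ℕ} (r : E n → ℝ) (y : E n) (l : E n →L[ℂ] ℂ) : Prop := ∀ z, (l z).re = fderiv ℝ r y z

/-- The functional `X ↦ l (X' - X₀ y)` on the homogeneous coordinates. -/
noncomputable def Ly {n : ℕ} (l : E n →L[ℂ] ℂ) (y : E n) (X : V n) : ℂ := l (X.2 - X.1 • y)

/-- The second derivative of `r` at `y` in the direction `z`. -/
noncomputable def Q {n : ℕ} (r : E n → ℝ) (y z : E n) : ℝ := fderiv ℝ (fderiv ℝ r) y z z

/-- The image of the cone of `Ω` lies in the cone of the closure. -/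
def Adm {n : ℕ} (Ω : Set (E n)) (C₀ : ℝ) (T : V n →L[ℂ] V n) : Prop :=
  ∀ X ∈ Cone Ω, (T X).1 ≠ 0 ∧ ‖(T X).2‖ ≤ C₀ * ‖(T X).1‖ ∧ aff (T X) ∈ closure Ω

/-- `g j`, `h j` are inverse to each other and preserve the cone; `g j → T`, `h j / s j → S`. -/
structure Sq {n : ℕ} (Ω : Set (E n)) (g h : ℕ → V n →L[ℂ] V n) (s : ℕ → ℝ) (T S : V n →L[ℂ] V n) :
    Prop where
  gh : ∀ j X, g j (h j X) = X
  hg : ∀ j X, h j (g j X) = X
  gm : ∀ j, ∀ X ∈ Cone Ω, g j X ∈ Cone Ω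
  hm : ∀ j, ∀ X ∈ Cone Ω, h j X ∈ Cone Ω
  sp : ∀ j, 0 < s j
  gT : Tendsto g atTop (𝓝 T)
  hS : Tendsto (fun j => ((s j)⁻¹ : ℂ) • h j) atTop (𝓝 S)
  T0 : T ≠ 0
  S0 : S ≠ 0

/-- The map `u_t`. -/
noncomputable def ut {n : ℕ} (l : E n →L[ℂ] ℂ) (p : E n) (k : ℂ) (t : ℝ) (X : V n) : V n :=
  X + (Complex.I * t * k * Ly l p X) • ((1 : ℂ), p)

/-- The Levi form of `r` at `p` is positive definite on the complex tangent space. -/
def Spc {n : ℕ} (r : E n → ℝ) (p : E n) : Prop :=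
  ∀ v : E n, v ≠ 0 → fderiv ℝ r p v = 0 → fderiv ℝ r p (Complex.I • v) = 0 →
    0 < Q r p v + Q r p (Complex.I • v)

variable {n : ℕ}

theorem aff_smul {c : ℂ} (hc : c ≠ 0) (X : V n) : aff (c • X) = aff X := by
  simp only [aff, Prod.smul_fst, Prod.smul_snd, smul_eq_mul, mul_inv, smul_smul]
  congr 1
  field_simp

theorem cone_smul {Ω : Set (E n)} {c : ℂ} (hc : c ≠ 0) {X : V n} (hX : X ∈ Cone Ω) :
    c • X ∈ Cone Ω := by
  refine ⟨mul_ne_zero hc hX.1, ?_⟩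
  rw [aff_smul hc]
  exact hX.2

theorem aff_lift (x : E n) : aff ((1 : ℂ), x) = x := by simp [aff]

theorem lift_mem {Ω : Set (E n)} {x : E n} (hx : x ∈ Ω) : ((1 : ℂ), x) ∈ Cone Ω :=
  ⟨one_ne_zero, by rw [aff_lift]; exact hx⟩

theorem eq_smul_lift {X : V n} (hX : X.1 ≠ 0) : X = X.1 • ((1 : ℂ), aff X) := by
  refine Prod.ext ?_ ?_
  · simp
  · simp [aff, smul_smul, hX]

theorem continuousAt_aff {X : V n} (hX : X.1 ≠ 0) : ContinuousAt (aff (n := n)) X :=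
  (continuousAt_fst.inv₀ hX).smul continuousAt_snd

theorem Dom.isOpen {Ω : Set (E n)} {r : E n → ℝ} {C₀ : ℝ} (h : Dom Ω r C₀) : IsOpen Ω := by
  rw [h.eq]
  exact isOpen_lt h.sm.continuous continuous_const

theorem isOpen_cone {Ω : Set (E n)} (h : IsOpen Ω) : IsOpen (Cone Ω) := by
  rw [isOpen_iff_mem_nhds]
  intro X hX
  have h1 : ∀ᶠ Y : V n in 𝓝 X, Y.1 ≠ 0 := continuousAt_fst.eventually_ne hX.1
  have h2 : ∀ᶠ Y : V n in 𝓝 X, aff Y ∈ Ω :=
    (continuousAt_aff hX.1).eventually (h.mem_nhds hX.2)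
  filter_upwards [h1, h2] with Y hY1 hY2
  exact ⟨hY1, hY2⟩

theorem Ly_add (l : E n →L[ℂ] ℂ) (y : E n) (X Y : V n) : Ly l y (X + Y) = Ly l y X + Ly l y Y := by
  simp only [Ly, Prod.fst_add, Prod.snd_add]
  rw [← map_add]
  congr 1
  module

theorem Ly_smul (l : E n →L[ℂ] ℂ) (y : E n) (c : ℂ) (X : V n) : Ly l y (c • X) = c * Ly l y X := by
  have h : (c • X).2 - (c • X).1 • y = c • (X.2 - X.1 • y) := by
    rw [Prod.smul_fst, Prod.smul_snd, smul_sub, smul_eq_mul, smul_smul]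
  rw [Ly, h, map_smul, smul_eq_mul, Ly]

theorem Ly_lift (l : E n →L[ℂ] ℂ) (y : E n) : Ly l y ((1 : ℂ), y) = 0 := by simp [Ly]

theorem ut_ut (l : E n →L[ℂ] ℂ) (p : E n) (k : ℂ) (t : ℝ) (X : V n) :
    ut l p k (-t) (ut l p k t X) = X := by
  have h : Ly l p (ut l p k t X) = Ly l p X := by
    rw [ut, Ly_add, Ly_smul, Ly_lift, mul_zero, add_zero]
  rw [ut, h, ut]
  push_cast
  module

theorem Dom.r_eq {Ω : Set (E n)} {r : E n → ℝ} {C₀ : ℝ} (h : Dom Ω r C₀) {y : E n}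
    (hy : y ∈ frontier Ω) : r y = 0 := by
  have h1 : y ∈ closure Ω := hy.1
  have h2 : y ∉ Ω := by
    intro h3
    exact hy.2 (by rw [h.isOpen.interior_eq]; exact h3)
  have h3 : r y ≤ 0 := by
    have h4 : closure Ω ⊆ {x | r x ≤ 0} := by
      refine closure_minimal ?_ (isClosed_le h.sm.continuous continuous_const)
      intro x hx
      rw [h.eq, Set.mem_ofPred_eq] at hx
      exact hx.le
    exact h4 h1
  have h5 : ¬ r y < 0 := by
    intro h6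
    exact h2 (by rw [h.eq]; exact h6)
  exact le_antisymm h3 (not_lt.1 h5)

theorem Cl.ne_zero {r : E n → ℝ} {y : E n} {l : E n →L[ℂ] ℂ} (h : Cl r y l)
    (h0 : fderiv ℝ r y ≠ 0) : l ≠ 0 := by
  intro hl
  refine h0 (ContinuousLinearMap.ext fun z => ?_)
  rw [← h z, hl]
  simp

end Gkp
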