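import Pool.Agent.Lib.Gkp.Spec

set_option autoImplicit false

open Filter Topology Metric Asymptotics

namespace Gkp

namespace EntM

theorem deriv_g (L a : ℂ) :
    HasDerivAt (fun t : ℝ => (-((t : ℂ) / L)) / (1 - (t : ℂ) / L * a)) (-L⁻¹) 0 := by
  have h0 : HasDerivAt (fun t : ℝ => (t : ℂ)) 1 0 := Complex.ofRealCLM.hasDerivAt
  have h1 : HasDerivAt (fun t : ℝ => (t : ℂ) / L) (1 / L) 0 := h0.div_const L
  have h2 : HasDerivAt (fun t : ℝ => -((t : ℂ) / L)) (-(1 / L)) 0 := h1.neg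
  have h3 : HasDerivAt (fun t : ℝ => 1 - (t : ℂ) / L * a) (-(1 / L * a)) 0 :=
    (h1.mul_const a).const_sub 1
  have h4 := h2.div h3 (by simp)
  have h5 : (-(1 / L) * (1 - ((0 : ℝ) : ℂ) / L * a) - -(((0 : ℝ) : ℂ) / L) * -(1 / L * a)) /
      (1 - ((0 : ℝ) : ℂ) / L * a) ^ 2 = -L⁻¹ := by
    simp
  rw [← h5]
  exact h4

theorem neg_of_deriv {f : ℝ → ℝ} (hf : HasDerivAt f (-1) 0) (h0 : f 0 = 0) :
    ∀ᶠ t : ℝ in 𝓝[>] 0, f t < 0 := by
  have h1 : Tendsto (slope f 0) (𝓝[>] 0) (𝓝 (-1)) :=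
    (hasDerivAt_iff_tendsto_slope.1 hf).mono_left
      (nhdsWithin_mono 0 (fun t ht => ne_of_gt ht))
  have h2 : ∀ᶠ t : ℝ in 𝓝[>] 0, slope f 0 t < 0 :=
    h1.eventually (Iio_mem_nhds (by norm_num))
  filter_upwards [h2, self_mem_nhdsWithin] with t ht ht0
  have ht0' : (0 : ℝ) < t := ht0
  rw [slope_def_field, h0, sub_zero, sub_zero] at ht
  by_contra h3
  exact absurd ht (not_lt.2 (div_nonneg (not_lt.1 h3) ht0'.le))

theorem aff_eq {n : ℕ} (y : E n) (X : V n) (c : ℂ) (hc : 1 - c * X.1 ≠ 0) :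
    aff (((1 : ℂ), y) - c • X) = y + ((-c) / (1 - c * X.1)) • (X.2 - X.1 • y) := by
  have h1 : (((1 : ℂ), y) - c • X).1 = 1 - c * X.1 := by simp
  have h2 : (((1 : ℂ), y) - c • X).2 = y - c • X.2 := by simp
  rw [aff, h1, h2]
  have h3 : y = ((1 - c * X.1)⁻¹ * (1 - c * X.1)) • y := by
    rw [inv_mul_cancel₀ hc, one_smul]
  have h4 : y + ((-c) / (1 - c * X.1)) • (X.2 - X.1 • y) =
      ((1 - c * X.1)⁻¹ * (1 - c * X.1)) • y +
        ((-c) / (1 - c * X.1)) • (X.2 - X.1 • y) := by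
    rw [← h3]
  rw [h4, div_eq_mul_inv]
  module

end EntM

theorem pEnt : S_Ent := by
  intro n Ω r C₀ y l hD hy hl X hX
  have hr : HasFDerivAt r (fderiv ℝ r y) y :=
    ((hD.sm.differentiable (by norm_num)) y).hasFDerivAt
  obtain ⟨L, hL⟩ : ∃ L, L = Ly l y X := ⟨_, rfl⟩
  rw [← hL] at hX ⊢
  have hg := EntM.deriv_g L X.1
  have hF : HasDerivAt
      (fun t : ℝ => y + ((-((t : ℂ) / L)) / (1 - (t : ℂ) / L * X.1)) • (X.2 - X.1 • y))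
      ((-L⁻¹) • (X.2 - X.1 • y)) 0 := (hg.smul_const _).const_add y
  have hF0 : y + ((-(((0 : ℝ) : ℂ) / L)) / (1 - ((0 : ℝ) : ℂ) / L * X.1)) • (X.2 - X.1 • y) = y := by
    simp
  have hr' : HasFDerivAt r (fderiv ℝ r y)
      (y + ((-(((0 : ℝ) : ℂ) / L)) / (1 - ((0 : ℝ) : ℂ) / L * X.1)) • (X.2 - X.1 • y)) := by
    rw [hF0]; exact hr
  have hc := hr'.comp_hasDerivAt (0 : ℝ) hF
  have hv : fderiv ℝ r y ((-L⁻¹) • (X.2 - X.1 • y)) = -1 := by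
    rw [← hl, map_smul, smul_eq_mul]
    have : l (X.2 - X.1 • y) = L := hL.symm
    rw [this, neg_mul, inv_mul_cancel₀ hX]
    simp
  rw [hv] at hc
  have h1 := EntM.neg_of_deriv hc ((congrArg r hF0).trans (hD.r_eq hy))
  have h2 : ∀ᶠ t : ℝ in 𝓝[>] 0, 1 - (t : ℂ) / L * X.1 ≠ 0 := by
    have h3 : ContinuousAt (fun t : ℝ => 1 - (t : ℂ) / L * X.1) 0 := by fun_prop
    have h4 : (fun t : ℝ => 1 - (t : ℂ) / L * X.1) 0 ≠ 0 := by simp
    exact (h3.eventually_ne h4).filter_mono nhdsWithin_le_nhds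
  filter_upwards [h1, h2] with t ht1 ht2
  refine ⟨by simpa using ht2, ?_⟩
  rw [hD.eq, Set.mem_ofPred_eq, EntM.aff_eq y X _ ht2]
  exact ht1

end Gkp
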