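import Pool.Agent.Lib.Gkp.Spec

/-!
# Projective automorphisms (MP_16b755_an), module Exo: the expansion of the defining function along a curve
-/

set_option autoImplicit false

open Filter Topology Metric Asymptotics

namespace Gkp

namespace ExoM

variable {n : ℕ}

theorem pow_bigO (m : ℕ) : (fun z : ℂ => z ^ m) =O[𝓝 0] (fun z : ℂ => ‖z‖ ^ m) :=
  IsBigO.of_bound 1 (Eventually.of_forall fun z => by
    rw [one_mul, norm_pow, norm_pow, norm_norm])

theorem pow_tendsto {m : ℕ} (hm : 1 ≤ m) : Tendsto (fun z : ℂ => z ^ m) (𝓝 0) (𝓝 0) := by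
  have h := (continuous_pow (M := ℂ) m).tendsto 0
  rwa [zero_pow (by omega)] at h

/-- the remainder of the Taylor formula -/
theorem tay (hTay : S_Tay) (r : E n → ℝ) (p : E n) (hr : ContDiff ℝ 2 r) :
    (fun v : E n => r (p + v) - r p - fderiv ℝ r p v - 1 / 2 * Q r p v) =o[𝓝 0]
      (fun v : E n => ‖v‖ ^ 2) := by
  rw [isLittleO_iff]
  intro c hc
  obtain ⟨ρ, hρ, h⟩ := hTay n r p hr c hc
  have h1 : ∀ᶠ v : E n in 𝓝 0, ‖v‖ < ρ := by
    have h2 := ball_mem_nhds (0 : E n) hρ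
    filter_upwards [h2] with v hv
    rwa [mem_ball_zero_iff] at hv
  filter_upwards [h1] with v hv
  rw [Real.norm_eq_abs, norm_pow, norm_norm]
  exact h v hv

theorem curve_tendsto {η : ℂ → E n} {m : ℕ} (hm : 1 ≤ m) (hη : ContinuousAt η 0) :
    Tendsto (fun z : ℂ => z ^ m • η z) (𝓝 0) (𝓝 0) := by
  have h := (pow_tendsto hm).smul hη.tendsto
  rwa [zero_smul] at h

theorem curve_bigO {η : ℂ → E n} {m : ℕ} (hη : ContinuousAt η 0) :
    (fun z : ℂ => z ^ m • η z) =O[𝓝 0] (fun z : ℂ => ‖z‖ ^ m) := by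
  have h := (pow_bigO m).smul (hη.tendsto.isBigO_one ℝ)
  refine h.congr_right fun z => ?_
  rw [smul_eq_mul, mul_one]

theorem diff_littleO {η : ℂ → E n} {m : ℕ} (hη : ContinuousAt η 0) :
    (fun z : ℂ => z ^ m • (η z - η 0)) =o[𝓝 0] (fun z : ℂ => ‖z‖ ^ m) := by
  have h1 : (fun z : ℂ => η z - η 0) =o[𝓝 0] (fun _ : ℂ => (1 : ℝ)) := by
    rw [isLittleO_one_iff]
    have h2 := hη.tendsto.sub_const (η 0)
    rwa [sub_self] at h2
  have h := (pow_bigO m).smul_isLittleO h1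
  refine h.congr_right fun z => ?_
  rw [smul_eq_mul, mul_one]

theorem quad (hQf : S_Qf) (r : E n → ℝ) (p : E n) {η : ℂ → E n} {m : ℕ}
    (hη : ContinuousAt η 0) :
    (fun z : ℂ => Q r p (z ^ m • η z) - Q r p (z ^ m • η 0)) =o[𝓝 0]
      (fun z : ℂ => ‖z‖ ^ (2 * m)) := by
  obtain ⟨_, _, _, _, C, _, hC⟩ := hQf n r p
  have hd := diff_littleO (m := m) hη
  have h0 : (fun z : ℂ => z ^ m • η 0) =O[𝓝 0] (fun z : ℂ => ‖z‖ ^ m) :=
    curve_bigO (η := fun _ => η 0) continuousAt_const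
  have h1 : (fun z : ℂ => C * (‖z ^ m • η 0‖ + ‖z ^ m • (η z - η 0)‖) *
      ‖z ^ m • (η z - η 0)‖) =o[𝓝 0] (fun z : ℂ => ‖z‖ ^ m * ‖z‖ ^ m) :=
    ((h0.norm_left.add hd.isBigO.norm_left).const_mul_left C).mul_isLittleO hd.norm_left
  have h2 : (fun z : ℂ => Q r p (z ^ m • η z) - Q r p (z ^ m • η 0)) =O[𝓝 0]
      (fun z : ℂ => C * (‖z ^ m • η 0‖ + ‖z ^ m • (η z - η 0)‖) *
        ‖z ^ m • (η z - η 0)‖) := by
    refine IsBigO.of_bound 1 (Eventually.of_forall fun z => ?_)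
    have h3 := hC (z ^ m • η 0) (z ^ m • (η z - η 0))
    have h4 : z ^ m • η 0 + z ^ m • (η z - η 0) = z ^ m • η z := by
      rw [smul_sub]
      abel
    rw [h4] at h3
    rw [Real.norm_eq_abs, one_mul]
    exact h3.trans (Real.norm_eq_abs _ ▸ le_abs_self _)
  refine (h2.trans_isLittleO h1).congr_right fun z => ?_
  rw [two_mul, pow_add]

end ExoM

open ExoM in
theorem pExo : S_Exo := by
  intro hTay hQf n r p l η m hr hrp hl hm hη ho
  have hA : (fun z : ℂ => r (p + z ^ m • η z) - r p - fderiv ℝ r p (z ^ m • η z) -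
      1 / 2 * Q r p (z ^ m • η z)) =o[𝓝 0] (fun z : ℂ => ‖z‖ ^ (2 * m)) := by
    have h1 := (tay hTay r p hr).comp_tendsto (curve_tendsto hm hη)
    have h2 : (fun z : ℂ => ‖z ^ m • η z‖ ^ 2) =O[𝓝 0] (fun z : ℂ => ‖z‖ ^ (2 * m)) := by
      refine ((curve_bigO (m := m) hη).norm_left.pow 2).congr_right fun z => ?_
      rw [← pow_mul, mul_comm]
    exact h1.trans_isBigO h2
  have hB := (quad hQf r p (m := m) hη).const_mul_left (1 / 2)
  refine ((ho.sub hA).sub hB).congr_left fun z => ?_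
  rw [hrp, ← hl]
  ring

end Gkp
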