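import Pool.Agent.Lib.Gkp.Spec

/-!
# Projective automorphisms (MP_16b755_an), module Ext: normalisation and a convergent subsequence
-/

set_option autoImplicit false

open Filter Topology Metric Asymptotics

namespace Gkp

namespace ExtM

variable {n : ℕ}

private theorem gm_aux {Ω : Set (E n)} (φ : E n → E n) (g : V n ≃L[ℂ] V n) (hφ : Set.BijOn φ Ω Ω)
    (hg : ∀ x ∈ Ω, (g ((1 : ℂ), x)).1 ≠ 0 ∧ φ x = aff (g ((1 : ℂ), x))) (X : V n) (hX : X ∈ Cone Ω) :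
    g X ∈ Cone Ω := by
  have h1 := hg (aff X) hX.2
  have h2 : g ((1 : ℂ), aff X) ∈ Cone Ω := ⟨h1.1, by rw [← h1.2]; exact hφ.mapsTo hX.2⟩
  rw [eq_smul_lift hX.1, map_smul]
  exact cone_smul hX.1 h2

private theorem hm_aux {Ω : Set (E n)} (φ : E n → E n) (g : V n ≃L[ℂ] V n) (hφ : Set.BijOn φ Ω Ω)
    (hg : ∀ x ∈ Ω, (g ((1 : ℂ), x)).1 ≠ 0 ∧ φ x = aff (g ((1 : ℂ), x))) (X : V n) (hX : X ∈ Cone Ω) :
    g.symm X ∈ Cone Ω := by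
  obtain ⟨x', hx', hx''⟩ := hφ.surjOn hX.2
  have h1 := hg x' hx'
  have h2 : g ((1 : ℂ), x') = (g ((1 : ℂ), x')).1 • ((1 : ℂ), aff X) := by
    rw [← hx'', h1.2]
    exact eq_smul_lift h1.1
  have h3 : g.symm ((1 : ℂ), aff X) = ((g ((1 : ℂ), x')).1)⁻¹ • ((1 : ℂ), x') := by
    rw [ContinuousLinearEquiv.symm_apply_eq, map_smul]
    conv_rhs => rw [h2]
    rw [smul_smul, Prod.smul_fst, smul_eq_mul, mul_one, inv_mul_cancel₀ h1.1, one_smul]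
  rw [eq_smul_lift hX.1, map_smul, h3]
  exact cone_smul hX.1 (cone_smul (inv_ne_zero h1.1) (lift_mem hx'))

private theorem app_lim {a : ℕ → V n →L[ℂ] V n} {x : ℕ → V n} {T : V n →L[ℂ] V n} {x₀ : V n}
    (h1 : Tendsto a atTop (𝓝 T)) (h2 : Tendsto x atTop (𝓝 x₀)) :
    Tendsto (fun j => a j (x j)) atTop (𝓝 (T x₀)) := by
  have h3 : Continuous (fun p : (V n →L[ℂ] V n) × V n => p.1 p.2) := isBoundedBilinearMap_apply.continuous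
  exact (h3.tendsto (T, x₀)).comp (h1.prodMk_nhds h2)

end ExtM

open ExtM in
/-- **Ext.** Normalisation and a convergent subsequence -/
theorem pExt : S_Ext := by
  intro n Ω r C₀ φ g₀ q p hD hφ hg hq hp
  haveI : ProperSpace (V n →L[ℂ] V n) := FiniteDimensional.proper ℂ _
  set A : ℕ → V n →L[ℂ] V n := fun j => (g₀ j : V n →L[ℂ] V n) with hA
  set B : ℕ → V n →L[ℂ] V n := fun j => ((g₀ j).symm : V n →L[ℂ] V n) with hB
  have hAB : ∀ j X, A j (B j X) = X := fun j X => (g₀ j).apply_symm_apply X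
  have hBA : ∀ j X, B j (A j X) = X := fun j X => (g₀ j).symm_apply_apply X
  have hX0 : ((1 : ℂ), (0 : E n)) ≠ (0 : V n) := by
    intro h
    exact one_ne_zero (congrArg Prod.fst h)
  have hX0' : 0 < ‖((1 : ℂ), (0 : E n))‖ := norm_pos_iff.2 hX0
  have hN : ∀ j, 0 < ‖A j‖ := by
    intro j
    refine norm_pos_iff.2 fun h => hX0 ?_
    rw [← hAB j ((1 : ℂ), (0 : E n)), h]
    rfl
  have hNc : ∀ j, ((‖A j‖ : ℝ) : ℂ) ≠ 0 := fun j => by exact_mod_cast (hN j).ne'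
  set a : ℕ → V n →L[ℂ] V n := fun j => ((‖A j‖ : ℝ) : ℂ)⁻¹ • A j with ha
  set b : ℕ → V n →L[ℂ] V n := fun j => ((‖A j‖ : ℝ) : ℂ) • B j with hb
  have ha' : ∀ j X, a j X = ((‖A j‖ : ℝ) : ℂ)⁻¹ • A j X := fun j X => rfl
  have hb' : ∀ j X, b j X = ((‖A j‖ : ℝ) : ℂ) • B j X := fun j X => rfl
  have hab : ∀ j X, a j (b j X) = X := by
    intro j X
    rw [ha', hb', map_smul, hAB, smul_smul, inv_mul_cancel₀ (hNc j), one_smul]
  have hba : ∀ j X, b j (a j X) = X := by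
    intro j X
    rw [hb', ha', map_smul, hBA, smul_smul, mul_inv_cancel₀ (hNc j), one_smul]
  have hna : ∀ j, ‖a j‖ = 1 := by
    intro j
    have h1 : ‖a j‖ = ‖((‖A j‖ : ℝ) : ℂ)⁻¹‖ * ‖A j‖ := norm_smul _ _
    rw [h1, norm_inv, Complex.norm_real, norm_norm, inv_mul_cancel₀ (hN j).ne']
  have hσ : ∀ j, 1 ≤ ‖b j‖ := by
    intro j
    have h1 : ‖((1 : ℂ), (0 : E n))‖ ≤ ‖b j‖ * ‖((1 : ℂ), (0 : E n))‖ := by
      calc ‖((1 : ℂ), (0 : E n))‖ = ‖a j (b j ((1 : ℂ), (0 : E n)))‖ := by rw [hab]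
        _ ≤ ‖a j‖ * ‖b j ((1 : ℂ), (0 : E n))‖ := (a j).le_opNorm _
        _ = ‖b j ((1 : ℂ), (0 : E n))‖ := by rw [hna, one_mul]
        _ ≤ ‖b j‖ * ‖((1 : ℂ), (0 : E n))‖ := (b j).le_opNorm _
    by_contra hcon
    push Not at hcon
    nlinarith
  have hσ0 : ∀ j, 0 < ‖b j‖ := fun j => lt_of_lt_of_le one_pos (hσ j)
  have hσc : ∀ j, ((‖b j‖ : ℝ) : ℂ) ≠ 0 := fun j => by exact_mod_cast (hσ0 j).ne'
  have hnb : ∀ j, ‖((‖b j‖ : ℝ) : ℂ)⁻¹ • b j‖ = 1 := by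
    intro j
    have h1 : ‖((‖b j‖ : ℝ) : ℂ)⁻¹ • b j‖ = ‖((‖b j‖ : ℝ) : ℂ)⁻¹‖ * ‖b j‖ := norm_smul _ _
    rw [h1, norm_inv, Complex.norm_real, norm_norm, inv_mul_cancel₀ (hσ0 j).ne']
  set w : ℕ → (V n →L[ℂ] V n) × (V n →L[ℂ] V n) × ℝ :=
    fun j => (a j, ((‖b j‖ : ℝ) : ℂ)⁻¹ • b j, (‖b j‖)⁻¹) with hw
  have hK : IsCompact ((closedBall (0 : V n →L[ℂ] V n) 1) ×ˢ ((closedBall (0 : V n →L[ℂ] V n) 1) ×ˢ
      (Set.Icc (0 : ℝ) 1))) :=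
    (isCompact_closedBall _ _).prod ((isCompact_closedBall _ _).prod isCompact_Icc)
  have hwK : ∀ j, w j ∈ ((closedBall (0 : V n →L[ℂ] V n) 1) ×ˢ ((closedBall (0 : V n →L[ℂ] V n) 1) ×ˢ
      (Set.Icc (0 : ℝ) 1))) := by
    intro j
    refine ⟨?_, ?_, ?_, ?_⟩
    · exact mem_closedBall_zero_iff.2 (hna j).le
    · exact mem_closedBall_zero_iff.2 (hnb j).le
    · exact (inv_pos.2 (hσ0 j)).le
    · exact inv_le_one_of_one_le₀ (hσ j)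
  obtain ⟨⟨T, S, eps⟩, -, ψ, hψ, hlim⟩ := hK.tendsto_subseq hwK
  have hT : Tendsto (fun j => a (ψ j)) atTop (𝓝 T) := (continuous_fst.tendsto _).comp hlim
  have hS : Tendsto (fun j => ((‖b (ψ j)‖ : ℝ) : ℂ)⁻¹ • b (ψ j)) atTop (𝓝 S) :=
    (continuous_fst.tendsto _).comp ((continuous_snd.tendsto _).comp hlim)
  have hE : Tendsto (fun j => (‖b (ψ j)‖)⁻¹) atTop (𝓝 eps) :=
    (continuous_snd.tendsto _).comp ((continuous_snd.tendsto _).comp hlim)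
  have hEc : Tendsto (fun j => (((‖b (ψ j)‖ : ℝ) : ℂ))⁻¹) atTop (𝓝 (eps : ℂ)) := by
    have h1 : Tendsto (fun j => (((‖b (ψ j)‖)⁻¹ : ℝ) : ℂ)) atTop (𝓝 (eps : ℂ)) :=
      (Complex.continuous_ofReal.tendsto eps).comp hE
    simpa using h1
  have hT1 : ‖T‖ = 1 := by
    have h1 := hT.norm
    simp only [hna] at h1
    exact (tendsto_nhds_unique h1 tendsto_const_nhds)
  have hS1 : ‖S‖ = 1 := by
    have h1 := hS.norm
    simp only [hnb] at h1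
    exact (tendsto_nhds_unique h1 tendsto_const_nhds)
  refine ⟨fun j => a (ψ j), fun j => b (ψ j), fun j => ‖b (ψ j)‖, T, S, eps, ?_, ?_, hE, ?_, ?_⟩
  · refine ⟨fun j X => hab _ X, fun j X => hba _ X, ?_, ?_, fun j => hσ0 _, hT, hS, ?_, ?_⟩
    · intro j X hX
      change a (ψ j) X ∈ Cone Ω
      rw [ha']
      exact cone_smul (inv_ne_zero (hNc _)) (gm_aux (φ (ψ j)) (g₀ (ψ j)) (hφ _) (hg _) X hX)
    · intro j X hX
      change b (ψ j) X ∈ Cone Ω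
      rw [hb']
      exact cone_smul (hNc _) (hm_aux (φ (ψ j)) (g₀ (ψ j)) (hφ _) (hg _) X hX)
    · intro h
      rw [h, norm_zero] at hT1
      exact zero_ne_one hT1
    · intro h
      rw [h, norm_zero] at hS1
      exact zero_ne_one hS1
  · have h1 : ∀ j, aff (a (ψ j) ((1 : ℂ), q)) = φ (ψ j) q := by
      intro j
      rw [ha', aff_smul (inv_ne_zero (hNc _)), (hg (ψ j) q hq).2]
      rfl
    simp only [h1]
    exact hp.comp hψ.tendsto_atTop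
  · intro X
    have h1 : Tendsto (fun j => a (ψ j) ((((‖b (ψ j)‖ : ℝ) : ℂ)⁻¹ • b (ψ j)) X)) atTop (𝓝 (T (S X))) :=
      app_lim hT (app_lim hS tendsto_const_nhds)
    have h2 : ∀ j, a (ψ j) ((((‖b (ψ j)‖ : ℝ) : ℂ)⁻¹ • b (ψ j)) X) = ((‖b (ψ j)‖ : ℝ) : ℂ)⁻¹ • X := by
      intro j
      have h3 : (((‖b (ψ j)‖ : ℝ) : ℂ)⁻¹ • b (ψ j)) X = ((‖b (ψ j)‖ : ℝ) : ℂ)⁻¹ • b (ψ j) X := rfl
      rw [h3, map_smul, hab]
    simp only [h2] at h1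
    exact tendsto_nhds_unique h1 (hEc.smul_const X)
  · intro X
    have h1 : Tendsto (fun j => (((‖b (ψ j)‖ : ℝ) : ℂ)⁻¹ • b (ψ j)) (a (ψ j) X)) atTop (𝓝 (S (T X))) :=
      app_lim hS (app_lim hT tendsto_const_nhds)
    have h2 : ∀ j, (((‖b (ψ j)‖ : ℝ) : ℂ)⁻¹ • b (ψ j)) (a (ψ j) X) = ((‖b (ψ j)‖ : ℝ) : ℂ)⁻¹ • X := by
      intro j
      have h3 : (((‖b (ψ j)‖ : ℝ) : ℂ)⁻¹ • b (ψ j)) (a (ψ j) X) =
          ((‖b (ψ j)‖ : ℝ) : ℂ)⁻¹ • b (ψ j) (a (ψ j) X) := rfl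
      rw [h3, hba]
    simp only [h2] at h1
    exact tendsto_nhds_unique h1 (hEc.smul_const X)

end Gkp
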