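import Pool.Agent.Lib.Gkp.Spec

/-!
# The factorisation of a curve of order m
-/

set_option autoImplicit false

open Filter Topology Metric Asymptotics

namespace Gkp

theorem pFac : S_Fac := by
  intro n γ p ε m hε hd h0 hm hvan hne
  have han : AnalyticAt ℂ γ 0 := hd.analyticAt (ball_mem_nhds 0 hε)
  have han' : AnalyticAt ℂ (fun z => γ z - p) 0 := han.sub analyticAt_const
  have hder : ∀ i, 1 ≤ i → iteratedDeriv i (fun z => γ z - p) = iteratedDeriv i γ := by
    intro i hi
    obtain ⟨m', rfl⟩ : ∃ m', i = m' + 1 := ⟨i - 1, by omega⟩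
    rw [iteratedDeriv_succ', iteratedDeriv_succ']
    congr 1
    funext z
    exact deriv_sub_const p
  have hge : ((m : ℕ) : ℕ∞) ≤ analyticOrderAt (fun z => γ z - p) 0 := by
    rw [natCast_le_analyticOrderAt_iff_iteratedDeriv_eq_zero han']
    intro i hi
    rcases Nat.eq_zero_or_pos i with hi0 | hi0
    · subst hi0
      simp [iteratedDeriv_zero, h0]
    · rw [hder i hi0]
      exact hvan i hi0 hi
  have hlt : ¬ ((m + 1 : ℕ) : ℕ∞) ≤ analyticOrderAt (fun z => γ z - p) 0 := by
    intro hc
    rw [natCast_le_analyticOrderAt_iff_iteratedDeriv_eq_zero han'] at hc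
    have := hc m (Nat.lt_succ_self m)
    rw [hder m hm] at this
    exact hne this
  have htop : analyticOrderAt (fun z => γ z - p) 0 ≠ ⊤ := by
    intro hc
    rw [hc] at hlt
    exact hlt le_top
  obtain ⟨s, hs⟩ := ENat.ne_top_iff_exists.1 htop
  have hsm : s = m := by
    rw [← hs] at hlt hge
    have h1 : ¬ (m + 1 ≤ s) := fun hc => hlt (by exact_mod_cast hc)
    have h2 : m ≤ s := by exact_mod_cast hge
    omega
  subst hsm
  obtain ⟨g, hg, hg0, hev⟩ := (han'.analyticOrderAt_eq_natCast).1 hs.symm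
  refine ⟨g, hg, hg0, ?_⟩
  filter_upwards [hev] with z hz
  rw [sub_zero] at hz
  rw [← hz]
  abel

end Gkp
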