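import Pool.Agent.Lib.Gkp.Spec

set_option autoImplicit false

open Filter Topology Metric Asymptotics

namespace Gkp

/-- a homogeneous harmonic polynomial of small order vanishes -/
theorem pFo : S_Fo := by
  intro c m hm h
  by_contra hc
  have hcn : 0 < ‖c‖ := norm_pos_iff.2 hc
  have hm0 : m ≠ 0 := by omega
  obtain ⟨θ, hθ⟩ := IsAlgClosed.exists_pow_nat_eq ((starRingEnd ℂ) c / (‖c‖ : ℂ)) (n := m) (by omega)
  have hθn : ‖θ‖ = 1 := by
    have h1 : ‖θ‖ ^ m = 1 := by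
      rw [← norm_pow, hθ, norm_div, RCLike.norm_conj, Complex.norm_real, norm_norm,
        div_self hcn.ne']
    exact (pow_eq_one_iff_of_nonneg (norm_nonneg θ) hm0).1 h1
  have hT : Tendsto (fun t : ℝ => (t : ℂ) * θ) (𝓝 0) (𝓝 0) := by
    have h2 : Continuous (fun t : ℝ => (t : ℂ) * θ) := by fun_prop
    have h3 := h2.tendsto 0
    simpa using h3
  have h1 := hT.eventually (h.def (half_pos hcn))
  have h4 : ∀ᶠ t : ℝ in 𝓝[>] 0, ‖(c * ((t : ℂ) * θ) ^ m).re‖ ≤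
      ‖c‖ / 2 * ‖(‖(t : ℂ) * θ‖ ^ m : ℝ)‖ := h1.filter_mono nhdsWithin_le_nhds
  obtain ⟨t, ht, htp⟩ := (h4.and self_mem_nhdsWithin).exists
  have htp' : 0 < t := htp
  have e1 : c * ((t : ℂ) * θ) ^ m = ((t ^ m * ‖c‖ : ℝ) : ℂ) := by
    have hcc : c * (starRingEnd ℂ) c = ((‖c‖ : ℂ)) ^ 2 := Complex.mul_conj' c
    have hcz : (‖c‖ : ℂ) ≠ 0 := by exact_mod_cast hcn.ne'
    rw [mul_pow, hθ]
    push_cast
    field_simp
    rw [← hcc]
    ring
  rw [e1, Complex.ofReal_re, norm_mul, norm_mul, norm_pow, norm_pow, norm_norm, hθn, mul_one,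
    norm_norm] at ht
  have hpos : 0 < ‖(t : ℂ)‖ ^ m := by
    rw [Complex.norm_real]
    exact pow_pos (norm_pos_iff.2 htp'.ne') m
  rw [Complex.norm_real] at ht hpos
  nlinarith [mul_pos hpos hcn]

end Gkp
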