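import Pool.Agent.Lib.Gkp.Spec

/-!
# Projective automorphisms (MP_16b755_an): the one-parameter group
-/

set_option autoImplicit false

open Filter Topology Metric Asymptotics

namespace Gkp

namespace GrpM

variable {n : ℕ}

/-- a vector with `l e = 1` -/
theorem exists_one {l : E n →L[ℂ] ℂ} (hl : l ≠ 0) : ∃ e : E n, l e = 1 := by
  by_contra hcon
  apply hl
  ext z
  by_contra hz
  apply hcon
  refine ⟨(l z)⁻¹ • z, ?_⟩
  rw [map_smul, smul_eq_mul]
  exact inv_mul_cancel₀ hz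

/-- the value of `Ly` at `(0, e)` -/
theorem Ly_zero (l : E n →L[ℂ] ℂ) (y e : E n) : Ly l y ((0 : ℂ), e) = l e := by
  simp [Ly]

theorem eval_tendsto {A : ℕ → V n →L[ℂ] V n} {B : V n →L[ℂ] V n} (h : Tendsto A atTop (𝓝 B))
    (X : V n) : Tendsto (fun j => A j X) atTop (𝓝 (B X)) :=
  ((ContinuousLinearMap.apply ℂ (V n) X).continuous.tendsto B).comp h

theorem key {g h : ℕ → V n →L[ℂ] V n} {s : ℕ → ℝ} {T S : V n →L[ℂ] V n} {Ω : Set (E n)}
    (hq : Sq Ω g h s T S) (X v : V n) (c : ℂ) (j : ℕ) :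
    ((s j)⁻¹ : ℂ) • h j (X + c • g j v) = ((s j)⁻¹ : ℂ) • h j X + (c / s j) • v := by
  rw [map_add, map_smul, hq.hg, smul_add, smul_smul]
  congr 2
  rw [div_eq_mul_inv, mul_comm]

end GrpM

open GrpM

/-- **Grp.** The one-parameter group. -/
theorem pGrp : S_Grp := by
  intro hBj n Ω r C₀ g h s T S y p l k hD hq hs hA hy hl hT hS t X hX
  obtain ⟨e, he⟩ := exists_one (hl.ne_zero (hD.gr y hy))
  have hopen : IsOpen (Cone Ω) := isOpen_cone hD.isOpen
  have hTv : T ((0 : ℂ), e) = k • ((1 : ℂ), p) := by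
    rw [hT, Ly_zero, he, mul_one]
  have hb : Tendsto (fun j => g j ((0 : ℂ), e)) atTop (𝓝 (k • ((1 : ℂ), p))) := by
    have h1 := eval_tendsto hq.gT (((0 : ℂ), e) : V n)
    rwa [hTv] at h1
  have hY : Tendsto (fun j => ((s j)⁻¹ : ℂ) • h j X) atTop (𝓝 (S X)) :=
    eval_tendsto hq.hS X
  have hm : (S X).1 ≠ 0 := (hA X hX).1
  have haff : aff (S X) = y := by
    rw [hS X, aff_smul hm, aff_lift]
  have hs0 : ∀ j, ((s j)⁻¹ : ℂ) ≠ 0 := fun j =>
    inv_ne_zero (Complex.ofReal_ne_zero.2 (hq.sp j).ne')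
  have hs1 : ∀ j, (s j : ℂ) ≠ 0 := fun j => Complex.ofReal_ne_zero.2 (hq.sp j).ne'
  have hr : ∀ Z ∈ Cone Ω, r (aff Z) < 0 := by
    intro Z hZ
    have h1 := hZ.2
    rw [hD.eq] at h1
    exact h1
  have hlim : ∀ c : ℂ, Tendsto (fun j => s j * (r (aff (((s j)⁻¹ : ℂ) • h j X +
      (c / s j) • ((0 : ℂ), e))) - r (aff (((s j)⁻¹ : ℂ) • h j X)))) atTop
      (𝓝 ((c / (S X).1).re)) := by
    intro c
    have h1 := hBj n r y l hD.sm hl (fun j => ((s j)⁻¹ : ℂ) • h j X) (S X) s c e hY hm haff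
      hq.sp hs
    rwa [he, mul_one] at h1
  -- Step 1
  obtain ⟨c₀, hc₀, hc₁⟩ : ∃ c₀ : ℝ, 0 < c₀ ∧
      X + ((c₀ : ℂ) * (S X).1) • (k • ((1 : ℂ), p)) ∈ Cone Ω := by
    have h1 : Tendsto (fun c₀ : ℝ => X + ((c₀ : ℂ) * (S X).1) • (k • (((1 : ℂ), p) : V n)))
        (𝓝 0) (𝓝 X) := by
      have h2 : Continuous (fun c₀ : ℝ =>
          X + ((c₀ : ℂ) * (S X).1) • (k • (((1 : ℂ), p) : V n))) := by fun_prop
      have h3 := h2.tendsto 0
      simpa using h3
    have h4 : ∀ᶠ c₀ : ℝ in 𝓝[>] 0,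
        X + ((c₀ : ℂ) * (S X).1) • (k • (((1 : ℂ), p) : V n)) ∈ Cone Ω :=
      (h1.eventually (hopen.mem_nhds hX)).filter_mono nhdsWithin_le_nhds
    obtain ⟨c₀, h5, h6⟩ := (h4.and self_mem_nhdsWithin).exists
    exact ⟨c₀, h6, h5⟩
  have hstep : ∀ᶠ j in atTop, s j * r (aff (((s j)⁻¹ : ℂ) • h j X)) < -(c₀ / 2) := by
    have h1 : Tendsto (fun j => X + ((c₀ : ℂ) * (S X).1) • g j ((0 : ℂ), e)) atTop
        (𝓝 (X + ((c₀ : ℂ) * (S X).1) • (k • ((1 : ℂ), p)))) :=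
      tendsto_const_nhds.add (hb.const_smul _)
    have h2 := h1.eventually (hopen.mem_nhds hc₁)
    have h3 := hlim ((c₀ : ℂ) * (S X).1)
    have h4 : (((c₀ : ℂ) * (S X).1) / (S X).1).re = c₀ := by
      rw [mul_div_assoc, div_self hm, mul_one, Complex.ofReal_re]
    rw [h4] at h3
    have h5 := h3.eventually (lt_mem_nhds (show c₀ / 2 < c₀ by linarith))
    filter_upwards [h2, h5] with j hj1 hj2
    have h6 : ((s j)⁻¹ : ℂ) • h j X + (((c₀ : ℂ) * (S X).1) / s j) • ((0 : ℂ), e) ∈ Cone Ω := by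
      rw [← key hq]
      exact cone_smul (hs0 j) (hq.hm j _ hj1)
    have h7 := hr _ h6
    have h8 := mul_neg_of_pos_of_neg (hq.sp j) h7
    rw [mul_sub] at hj2
    linarith
  -- Step 2
  have hmem : ∀ᶠ j in atTop,
      X + (Complex.I * t * (S X).1) • g j ((0 : ℂ), e) ∈ Cone Ω := by
    have h3 := hlim (Complex.I * t * (S X).1)
    have h4 : ((Complex.I * t * (S X).1) / (S X).1).re = 0 := by
      rw [mul_div_assoc, div_self hm, mul_one]
      simp
    rw [h4] at h3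
    have h5 := h3.eventually (gt_mem_nhds (show (0 : ℝ) < c₀ / 2 by linarith))
    filter_upwards [hstep, h5] with j hj1 hj2
    rw [mul_sub] at hj2
    have h6 : s j * r (aff (((s j)⁻¹ : ℂ) • h j X +
        ((Complex.I * t * (S X).1) / s j) • ((0 : ℂ), e))) < 0 := by linarith
    have h7 : r (aff (((s j)⁻¹ : ℂ) • h j X +
        ((Complex.I * t * (S X).1) / s j) • ((0 : ℂ), e))) < 0 := by
      by_contra hcon
      have h8 := mul_nonneg (hq.sp j).le (not_lt.1 hcon)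
      linarith
    have h9 : ((s j)⁻¹ : ℂ) • h j X ∈ Cone Ω := cone_smul (hs0 j) (hq.hm j X hX)
    have h10 : ((s j)⁻¹ : ℂ) • h j X +
        ((Complex.I * t * (S X).1) / s j) • ((0 : ℂ), e) ∈ Cone Ω := by
      refine ⟨?_, ?_⟩
      · have h11 : (((s j)⁻¹ : ℂ) • h j X +
            ((Complex.I * t * (S X).1) / s j) • ((0 : ℂ), e)).1 =
            (((s j)⁻¹ : ℂ) • h j X).1 := by
          simp
        rw [h11]
        exact h9.1
      · rw [hD.eq]
        exact h7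
    have h12 := hq.gm j _ h10
    rw [← key hq, map_smul, hq.gh] at h12
    have h13 := cone_smul (hs1 j) h12
    rw [smul_smul, mul_inv_cancel₀ (hs1 j), one_smul] at h13
    exact h13
  have hfin : Tendsto (fun j => X + (Complex.I * t * (S X).1) • g j ((0 : ℂ), e)) atTop
      (𝓝 (X + (Complex.I * t * (S X).1) • (k • ((1 : ℂ), p)))) :=
    tendsto_const_nhds.add (hb.const_smul _)
  have h14 := mem_closure_of_tendsto hfin hmem
  rw [smul_smul] at h14
  have h15 : Complex.I * t * (S X).1 * k = Complex.I * t * k * (S X).1 := by ring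
  rw [h15] at h14
  exact h14

end Gkp
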