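import Pool.Agent.Lib.Gkp.Spec

/-!
# Projective automorphisms (MP_16b755_an): inner paraboloids
-/

set_option autoImplicit false

open Filter Topology Metric Asymptotics

namespace Gkp

theorem pInc : S_Inc := by
  intro hTay hQf hT2 n Ω r C₀ p l k hD hp hl hk hut a w hw ha
  have hr : r p = 0 := hD.r_eq hp
  have hlim := hT2 hTay hQf n r p l k a w hD.sm hr hl hk hw
  have hneg : (k ^ 2)⁻¹ * (a.re + 1 / 2 * Q r p (Complex.I • w)) < 0 := by
    have h1 : 0 < (k ^ 2)⁻¹ := by positivity
    exact mul_neg_of_pos_of_neg h1 ha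
  have h1 := hlim.eventually_lt_const hneg
  obtain ⟨t, ht1, ht2⟩ := (h1.and (eventually_gt_atTop (-(a.im / k)))).exists
  have hne : a + Complex.I * t * k ≠ 0 := by
    intro h
    have h2 := congrArg Complex.im h
    simp only [Complex.add_im, Complex.mul_im, Complex.mul_re, Complex.I_re, Complex.I_im,
      Complex.ofReal_re, Complex.ofReal_im, Complex.zero_im] at h2
    have h3 : t * k = -a.im := by linarith
    have h4 : t = -(a.im / k) := by
      field_simp
      linarith
    exact ht2.ne' h4
  have hrn : r (p + (a + Complex.I * t * k)⁻¹ • w) < 0 := by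
    by_contra h
    push Not at h
    have h2 : 0 ≤ t ^ 2 * r (p + (a + Complex.I * t * k)⁻¹ • w) := mul_nonneg (sq_nonneg t) h
    exact absurd ht1 (not_lt.2 h2)
  have hL : Ly l p ((a, a • p + w) : V n) = 1 := by
    simp [Ly, hw]
  have hu : ut l p k t ((a, a • p + w) : V n) =
      (a + Complex.I * t * k, (a + Complex.I * t * k) • p + w) := by
    rw [ut, hL]
    refine Prod.ext ?_ ?_
    · simp
    · simp only [Prod.snd_add, Prod.smul_snd, mul_one]
      module
  have hmem : ut l p k t ((a, a • p + w) : V n) ∈ Cone Ω := by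
    rw [hu]
    refine ⟨hne, ?_⟩
    have h2 : aff ((a + Complex.I * t * k, (a + Complex.I * t * k) • p + w) : V n) =
        p + (a + Complex.I * t * k)⁻¹ • w := by
      simp only [aff, smul_add, smul_smul, inv_mul_cancel₀ hne, one_smul]
    rw [h2, hD.eq]
    exact hrn
  have h2 := hut (-t) _ hmem
  rw [ut_ut] at h2
  exact h2

end Gkp
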