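import Pool.Agent.Lib.Gkp.Spec

/-!
# Projective automorphisms (MP_16b755_an): statement Inf
-/

set_option autoImplicit false

open Filter Topology Metric Asymptotics

namespace Gkp

theorem pInf : S_Inf := by
  intro hReg hOpn n Ω r C₀ T S eps q hD hA hTS hST hq hfr
  by_contra he
  have heC : (eps : ℂ) ≠ 0 := Complex.ofReal_ne_zero.mpr he
  have hc : Continuous (fun X : V n => (eps : ℂ)⁻¹ • S X) :=
    ((eps : ℂ)⁻¹ • S).continuous
  have h : aff (T ((1 : ℂ), q)) ∈ Ω := by
    refine hOpn hReg n Ω r C₀ (fun X => T X) (fun X => (eps : ℂ)⁻¹ • S X) hD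
      hc ?_ ?_ ?_ ((1 : ℂ), q) (lift_mem hq)
    · intro X
      rw [map_smul, hTS, smul_smul, inv_mul_cancel₀ heC, one_smul]
    · intro X
      rw [hST, smul_smul, inv_mul_cancel₀ heC, one_smul]
    · intro X hX
      exact ⟨(hA X hX).1, (hA X hX).2.2⟩
  refine hfr.2 ?_
  rw [hD.isOpen.interior_eq]
  exact h

end Gkp
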