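import Pool.Agent.Lib.Gkp.Spec

/-!
# The constant `k` of the one-parameter group is real
-/

set_option autoImplicit false

open Filter Topology Metric Asymptotics

namespace Gkp

namespace KreM

/-- The limit along a filter on which `|t| → ∞`. -/
theorem lim_aux {n : ℕ} (r : E n → ℝ) (p w : E n) (l : E n →L[ℂ] ℂ) (k a : ℂ) (hk : k ≠ 0)
    (hr : DifferentiableAt ℝ r p) (hl : Cl r p l) (hw : l w = 1) (hp : r p = 0)
    (F : Filter ℝ) (hF : Tendsto (fun t : ℝ => ‖t‖) F atTop) :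
    Tendsto (fun t : ℝ => t * r (p + (a + Complex.I * t * k)⁻¹ • w)) F
      (𝓝 (((Complex.I * k)⁻¹).re)) := by
  have hIk : Complex.I * k ≠ 0 := mul_ne_zero Complex.I_ne_zero hk
  -- `a / t → 0`
  have h0 : Tendsto (fun t : ℝ => a * ((t : ℂ))⁻¹) F (𝓝 0) := by
    have h1 : Tendsto (fun t : ℝ => ((t : ℂ))⁻¹) F (𝓝 0) := by
      rw [tendsto_zero_iff_norm_tendsto_zero]
      have h2 : (fun t : ℝ => ‖((t : ℂ))⁻¹‖) = fun t : ℝ => (‖t‖)⁻¹ := by
        funext t
        rw [norm_inv, Complex.norm_real]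
      rw [h2]
      exact hF.inv_tendsto_atTop
    have h3 := h1.const_mul a
    rwa [mul_zero] at h3
  have h4 : Tendsto (fun t : ℝ => (a * ((t : ℂ))⁻¹ + Complex.I * k)⁻¹) F
      (𝓝 ((Complex.I * k)⁻¹)) := by
    have h5 : Tendsto (fun t : ℝ => a * ((t : ℂ))⁻¹ + Complex.I * k) F
        (𝓝 (0 + Complex.I * k)) := h0.add_const _
    rw [zero_add] at h5
    exact h5.inv₀ hIk
  have hne : ∀ᶠ t : ℝ in F, t ≠ 0 := by
    filter_upwards [hF.eventually (eventually_gt_atTop (0 : ℝ))] with t ht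
    exact norm_pos_iff.1 ht
  have h6 : Tendsto (fun t : ℝ => t • ((a + Complex.I * t * k)⁻¹ • w)) F
      (𝓝 ((Complex.I * k)⁻¹ • w)) := by
    have h7 : Tendsto (fun t : ℝ => (a * ((t : ℂ))⁻¹ + Complex.I * k)⁻¹ • w) F
        (𝓝 ((Complex.I * k)⁻¹ • w)) := h4.smul_const w
    refine h7.congr' ?_
    filter_upwards [hne] with t ht
    have ht' : (t : ℂ) ≠ 0 := by exact_mod_cast ht
    have h8 : (a * ((t : ℂ))⁻¹ + Complex.I * k)⁻¹ = (t : ℂ) * (a + Complex.I * t * k)⁻¹ := by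
      have h9 : a + Complex.I * t * k = (t : ℂ) * (a * ((t : ℂ))⁻¹ + Complex.I * k) := by
        field_simp
      rw [h9, mul_inv, ← mul_assoc, mul_inv_cancel₀ ht', one_mul]
    rw [h8, mul_smul]
    rfl
  have h10 := hr.hasFDerivAt.hasFDerivWithinAt (s := Set.univ)
  have hinv : Tendsto (fun t : ℝ => t⁻¹) F (𝓝 0) := by
    rw [tendsto_zero_iff_norm_tendsto_zero]
    have h2 : (fun t : ℝ => ‖t⁻¹‖) = fun t : ℝ => (‖t‖)⁻¹ := by
      funext t
      rw [norm_inv]
    rw [h2]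
    exact hF.inv_tendsto_atTop
  have hd0 : Tendsto (fun t : ℝ => (a + Complex.I * t * k)⁻¹ • w) F (𝓝 0) := by
    have h7 := hinv.smul h6
    rw [zero_smul] at h7
    refine h7.congr' ?_
    filter_upwards [hne] with t ht
    rw [smul_smul, inv_mul_cancel₀ ht, one_smul]
  have h11 := h10.lim (c := fun t : ℝ => t) (d := fun t : ℝ => (a + Complex.I * t * k)⁻¹ • w)
    hd0 (Eventually.of_forall fun _ => Set.mem_univ _) h6
  have h12 : fderiv ℝ r p ((Complex.I * k)⁻¹ • w) = ((Complex.I * k)⁻¹).re := by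
    rw [← hl, map_smul, hw, smul_eq_mul, mul_one]
  rw [h12] at h11
  refine h11.congr fun t => ?_
  rw [hp, sub_zero, smul_eq_mul]

end KreM

theorem pKre : S_Kre := by
  intro n Ω r C₀ p l k hD hp hl hk hut hX
  obtain ⟨X₁, hX₁, hL⟩ := hX
  have hXc : (Ly l p X₁)⁻¹ • X₁ ∈ Cone Ω := cone_smul (inv_ne_zero hL) hX₁
  obtain ⟨X, hXdef⟩ : ∃ X : V n, X = (Ly l p X₁)⁻¹ • X₁ := ⟨_, rfl⟩
  rw [← hXdef] at hXc
  have hLX : Ly l p X = 1 := by
    rw [hXdef, Ly_smul, inv_mul_cancel₀ hL]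
  have hw : l (X.2 - X.1 • p) = 1 := hLX
  have hneg : ∀ t : ℝ, r (p + (X.1 + Complex.I * t * k)⁻¹ • (X.2 - X.1 • p)) < 0 := by
    intro t
    obtain ⟨h1, h2⟩ := hut t X hXc
    have e1 : (ut l p k t X).1 = X.1 + Complex.I * t * k := by
      simp only [ut, hLX, mul_one, Prod.fst_add, Prod.smul_fst, smul_eq_mul]
    have e2 : (ut l p k t X).2 = X.2 + (Complex.I * t * k) • p := by
      simp only [ut, hLX, mul_one, Prod.snd_add, Prod.smul_snd]
    rw [e1] at h1
    have e3 : aff (ut l p k t X) =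
        p + (X.1 + Complex.I * t * k)⁻¹ • (X.2 - X.1 • p) := by
      have e4 : (X.1 + Complex.I * t * k)⁻¹ • ((X.1 + Complex.I * t * k) • p) = p := by
        rw [smul_smul, inv_mul_cancel₀ h1, one_smul]
      rw [aff, e1, e2]
      calc (X.1 + Complex.I * t * k)⁻¹ • (X.2 + (Complex.I * t * k) • p)
          = (X.1 + Complex.I * t * k)⁻¹ • ((X.1 + Complex.I * t * k) • p
              + (X.2 - X.1 • p)) := by
            congr 1
            module
        _ = p + (X.1 + Complex.I * t * k)⁻¹ • (X.2 - X.1 • p) := by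
            rw [smul_add, e4]
    rw [e3, hD.eq] at h2
    exact h2
  have hr : DifferentiableAt ℝ r p := hD.sm.contDiffAt.differentiableAt (by norm_num)
  have hrp : r p = 0 := hD.r_eq hp
  have hT := KreM.lim_aux r p (X.2 - X.1 • p) l k X.1 hk hr hl hw hrp atTop
    tendsto_norm_atTop_atTop
  have hB := KreM.lim_aux r p (X.2 - X.1 • p) l k X.1 hk hr hl hw hrp atBot
    (by simpa only [Real.norm_eq_abs] using tendsto_abs_atBot_atTop)
  have hle : ((Complex.I * k)⁻¹).re ≤ 0 := by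
    refine le_of_tendsto hT ?_
    filter_upwards [eventually_ge_atTop (0 : ℝ)] with t ht
    exact mul_nonpos_of_nonneg_of_nonpos ht (hneg t).le
  have hge : 0 ≤ ((Complex.I * k)⁻¹).re := by
    refine ge_of_tendsto hB ?_
    filter_upwards [eventually_le_atBot (0 : ℝ)] with t ht
    exact mul_nonneg_of_nonpos_of_nonpos ht (hneg t).le
  have h0 : ((Complex.I * k)⁻¹).re = 0 := le_antisymm hle hge
  rw [Complex.inv_re] at h0
  have hns : Complex.normSq (Complex.I * k) ≠ 0 :=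
    (Complex.normSq_pos.2 (mul_ne_zero Complex.I_ne_zero hk)).ne'
  have h1 : (Complex.I * k).re = 0 := by
    rcases div_eq_zero_iff.1 h0 with h | h
    · exact h
    · exact absurd h hns
  simpa using h1

end Gkp
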