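import Pool.Agent.Lib.Gkp.Spec

/-!
# Project Gkp (MP_16b755_an), module Lc: the complex linear functional with real part `dr_y`
-/

set_option autoImplicit false

open Filter Topology Metric Asymptotics

namespace Gkp

/-- **Lc.** -/
theorem pLc : S_Lc := by
  intro n r y
  refine ⟨StrongDual.extendRCLike (𝕜 := ℂ) (fderiv ℝ r y), fun z => ?_⟩
  rw [StrongDual.extendRCLike_apply]
  simp

end Gkp
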