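import Pool.Agent.Lib.Gkp.Spec

/-! Gkp, piece Lev: the Levi form is positive definite. -/

set_option autoImplicit false

open Filter Topology Metric Asymptotics

namespace Gkp

namespace LevM

/-- a polynomial of degree at most 2 without zeros is constant -/
theorem const_of_no_zero (A B C : ℂ) (h : ∀ z : ℂ, A * (z * z) + B * z + C ≠ 0) :
    A = 0 ∧ B = 0 := by
  by_cases hA : A = 0
  · refine ⟨hA, ?_⟩
    by_contra hB
    apply h (-C / B)
    rw [hA, mul_div_cancel₀ _ hB]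
    ring
  · exfalso
    obtain ⟨s, hs⟩ := IsAlgClosed.exists_pow_nat_eq (discrim A B C) (n := 2) (by norm_num)
    obtain ⟨x, hx⟩ := exists_quadratic_eq_zero hA ⟨s, by rw [← hs, sq]⟩
    exact h x hx

end LevM

/-- **Lev.** -/
theorem pLev : S_Lev := by
  intro hQf n Ω r C₀ p l hD hCl hl hcone v hv hv1 hv2
  by_contra hneg
  rw [not_lt] at hneg
  have hlv : l v = 0 := by
    apply Complex.ext
    · rw [hCl v, hv1]
      simp
    · have h1 := hCl (Complex.I • v)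
      rw [hv2, map_smul, smul_eq_mul, Complex.mul_re, Complex.I_re, Complex.I_im] at h1
      rw [Complex.zero_im]
      linarith
  obtain ⟨w₀, hw₀⟩ : ∃ w, l w = 1 := by
    obtain ⟨x, hx⟩ : ∃ x, l x ≠ 0 := by
      by_contra hcon
      apply hl
      ext x
      by_contra hx
      exact hcon ⟨_, hx⟩
    exact ⟨(l x)⁻¹ • x, by rw [map_smul, smul_eq_mul, inv_mul_cancel₀ hx]⟩
  obtain ⟨_, hform, hmix, _, _⟩ := hQf n r p
  obtain ⟨α, hα⟩ := hform v
  obtain ⟨β, hβ⟩ := hmix v (Complex.I • w₀)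
  have key : ∀ ζ : ℂ, ∀ a : ℂ,
      a = (α / 2) * (ζ * ζ) + (-(β * Complex.I / 2)) * ζ + (-((Q r p (Complex.I • w₀) : ℂ) / 2) - 1) →
        (a, a • p + (w₀ + ζ • v)) ∈ Cone Ω := by
    intro ζ a ha
    apply hcone
    · rw [map_add, map_smul, hlv, smul_zero, add_zero, hw₀]
    · have e1 : Complex.I • (w₀ + ζ • v) = Complex.I • w₀ + (Complex.I * ζ) • v := by
        rw [smul_add, smul_smul]
      have e2 : α * (Complex.I * ζ) ^ 2 = -(α * (ζ * ζ)) := by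
        rw [mul_pow, Complex.I_sq]
        ring
      have e3 : a.re = 1 / 2 * (α * (ζ * ζ)).re - 1 / 2 * (β * (Complex.I * ζ)).re -
          Q r p (Complex.I • w₀) / 2 - 1 := by
        have e4 : a = ((1 / 2 : ℝ) : ℂ) * (α * (ζ * ζ)) + ((-(1 / 2) : ℝ) : ℂ) * (β * (Complex.I * ζ)) +
            ((-(Q r p (Complex.I • w₀) / 2) - 1 : ℝ) : ℂ) := by
          rw [ha]
          push_cast
          ring
        rw [e4, Complex.add_re, Complex.add_re, Complex.re_ofReal_mul, Complex.re_ofReal_mul,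
          Complex.ofReal_re]
        ring
      have e5 : (Q r p v + Q r p (Complex.I • v)) / 2 * ‖Complex.I * ζ‖ ^ 2 ≤ 0 :=
        mul_nonpos_of_nonpos_of_nonneg (by linarith) (sq_nonneg _)
      rw [e1, hβ, hα, e2, Complex.neg_re, e3]
      linarith
  obtain ⟨hA, hB⟩ := LevM.const_of_no_zero (α / 2) (-(β * Complex.I / 2))
    (-((Q r p (Complex.I • w₀) : ℂ) / 2) - 1) (fun z => (key z _ rfl).1)
  have key2 : ∀ ζ : ℂ, ((-((Q r p (Complex.I • w₀) : ℂ) / 2) - 1),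
      (-((Q r p (Complex.I • w₀) : ℂ) / 2) - 1) • p + (w₀ + ζ • v)) ∈ Cone Ω := by
    intro ζ
    apply key
    rw [hA, hB]
    ring
  generalize (-((Q r p (Complex.I • w₀) : ℂ) / 2) - 1) = c at key2
  have hc : c ≠ 0 := (key2 0).1
  have hbd : ∀ ζ : ℂ, ‖ζ‖ * ‖v‖ ≤ C₀ * ‖c‖ + ‖c • p + w₀‖ := by
    intro ζ
    have h1 := hD.bd _ (key2 ζ).2
    have h2 : ‖c • p + (w₀ + ζ • v)‖ ≤ C₀ * ‖c‖ := by
      have h3 : c • p + (w₀ + ζ • v) = c • aff ((c, c • p + (w₀ + ζ • v)) : V n) := by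
        rw [aff, smul_smul, mul_inv_cancel₀ hc, one_smul]
      rw [h3, norm_smul, mul_comm]
      exact mul_le_mul_of_nonneg_right h1 (norm_nonneg _)
    have h4 : ζ • v = (c • p + (w₀ + ζ • v)) - (c • p + w₀) := by
      abel
    rw [← norm_smul, h4]
    exact (norm_sub_le _ _).trans (by linarith)
  have hv0 : 0 < ‖v‖ := norm_pos_iff.2 hv
  have h5 := hbd (((C₀ * ‖c‖ + ‖c • p + w₀‖ + 1) / ‖v‖ : ℝ) : ℂ)
  rw [Complex.norm_real, Real.norm_eq_abs] at h5
  have h6 := le_abs_self ((C₀ * ‖c‖ + ‖c • p + w₀‖ + 1) / ‖v‖)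
  have h7 : (C₀ * ‖c‖ + ‖c • p + w₀‖ + 1) / ‖v‖ * ‖v‖ = C₀ * ‖c‖ + ‖c • p + w₀‖ + 1 :=
    div_mul_cancel₀ _ hv0.ne'
  have h8 := mul_le_mul_of_nonneg_right h6 hv0.le
  linarith

end Gkp
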