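import Pool.Agent.Lib.Gkp.Spec

/-!
# Projective automorphisms of smoothly bounded domains (MP_16b755_an): assembly
-/

set_option autoImplicit false

open Filter Topology Metric Asymptotics

namespace Gkp

theorem pMainA : S_MainA := by
  intro hLc hReg hExt hNz hOpn hInf hEnt hRk hBj hGrp hUt hKre hTay hQf hT2 hInc hLev
  intro n Ω r C₀ φ g₀ q p hD hφ hg₀ hq hp hlim
  obtain ⟨g, h, s, T, S, eps, hSq, hgq, hs, hTS, hST⟩ :=
    hExt n Ω r C₀ φ g₀ q p hD hφ hg₀ hq hlim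
  have hAT : Adm Ω C₀ T := hNz n Ω r C₀ g T hD hSq.gm hSq.gT hSq.T0
  have hAS : Adm Ω C₀ S := by
    refine hNz n Ω r C₀ (fun j => ((s j)⁻¹ : ℂ) • h j) S hD ?_ hSq.hS hSq.S0
    intro j X hX
    have hsj : ((s j)⁻¹ : ℂ) ≠ 0 := by
      have h1 : (s j : ℂ) ≠ 0 := by exact_mod_cast (hSq.sp j).ne'
      exact inv_ne_zero h1
    exact cone_smul hsj (hSq.hm j X hX)
  have hq1 : ((1 : ℂ), q) ∈ Cone Ω := lift_mem hq
  have hTq := hAT _ hq1
  have hpT : aff (T ((1 : ℂ), q)) = p := by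
    have h1 : Tendsto (fun j => g j ((1 : ℂ), q)) atTop (𝓝 (T ((1 : ℂ), q))) :=
      ((ContinuousLinearMap.apply ℂ (V n) ((1 : ℂ), q)).continuous.tendsto T).comp hSq.gT
    have h2 := ((continuousAt_aff hTq.1).tendsto).comp h1
    have h3 : Tendsto (fun j => aff (g j ((1 : ℂ), q))) atTop (𝓝 p) := by
      have h4 : Tendsto (fun j => aff (g j ((1 : ℂ), q))) atTop (𝓝 p) := hgq
      exact h4
    exact tendsto_nhds_unique h2 h3
  have hpf : aff (T ((1 : ℂ), q)) ∈ frontier Ω := by rw [hpT]; exact hp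
  have heps : eps = 0 := hInf hReg hOpn n Ω r C₀ T S eps q hD hAT hTS hST hq hpf
  have hsT : Tendsto s atTop atTop := by
    have h1 : Tendsto (fun j => (s j)⁻¹) atTop (𝓝[>] 0) := by
      refine tendsto_nhdsWithin_iff.2 ⟨by rw [heps] at hs; exact hs, ?_⟩
      exact Eventually.of_forall fun j => inv_pos.2 (hSq.sp j)
    have h2 := tendsto_inv_nhdsGT_zero.comp h1
    simpa [Function.comp_def] using h2
  have hTS0 : ∀ X, T (S X) = 0 := fun X => by rw [hTS X, heps]; simp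
  have hST0 : ∀ X, S (T X) = 0 := fun X => by rw [hST X, heps]; simp
  have hSq1 := hAS _ hq1
  obtain ⟨q', hq'⟩ : ∃ q', q' = aff (S ((1 : ℂ), q)) := ⟨_, rfl⟩
  have hTq' : T ((1 : ℂ), q') = 0 := by
    have h1 := hTS0 ((1 : ℂ), q)
    rw [eq_smul_lift hSq1.1, map_smul, ← hq'] at h1
    exact (smul_eq_zero.1 h1).resolve_left hSq1.1
  have hq'n : q' ∉ Ω := by
    intro h1
    have h2 := (hAT _ (lift_mem h1)).1
    rw [hTq'] at h2
    exact h2 rfl
  have hq'f : q' ∈ frontier Ω := by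
    refine ⟨?_, fun hi => hq'n (interior_subset hi)⟩
    rw [hq']
    exact hSq1.2.2
  have hSp : S ((1 : ℂ), p) = 0 := by
    have h1 := hST0 ((1 : ℂ), q)
    rw [eq_smul_lift hTq.1, map_smul, hpT] at h1
    exact (smul_eq_zero.1 h1).resolve_left hTq.1
  obtain ⟨l, hl⟩ := hLc n r q'
  obtain ⟨l', hl'⟩ := hLc n r p
  obtain ⟨k₁, w₁, hk₁, hT⟩ := hRk hEnt n Ω r C₀ T q' l hD hAT hq'f hl hTq'
  obtain ⟨k₂, w₂, hk₂, hS⟩ := hRk hEnt n Ω r C₀ S p l' hD hAS hp hl' hSp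
  have hw₁ : w₁ = p := by
    have h0 : k₁ * Ly l q' ((1 : ℂ), q) ≠ 0 := by
      intro h0
      have h1 := hTq.1
      rw [hT, h0, zero_smul] at h1
      exact h1 rfl
    rw [← hpT, hT, aff_smul h0, aff_lift]
  have h0S : k₂ * Ly l' p ((1 : ℂ), q) ≠ 0 := by
    intro h0
    have h1 := hSq1.1
    rw [hS, h0, zero_smul] at h1
    exact h1 rfl
  have hw₂ : w₂ = q' := by
    rw [hq', hS, aff_smul h0S, aff_lift]
  have hS1 : ∀ X, (S X).1 = k₂ * Ly l' p X := by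
    intro X
    rw [hS X]
    simp
  have hG := hGrp hBj n Ω r C₀ g h s T S q' p l k₁ hD hSq hsT hAS hq'f hl
    (fun X => by rw [hT X, hw₁]) (fun X => by rw [hS1 X, hS X, hw₂])
  have hclos : ∀ t : ℝ, ∀ X ∈ Cone Ω, ut l' p (k₁ * k₂) t X ∈ closure (Cone Ω) := by
    intro t X hX
    have h1 := hG t X hX
    rw [hS1 X] at h1
    have e : ut l' p (k₁ * k₂) t X =
        X + (Complex.I * t * k₁ * (k₂ * Ly l' p X)) • ((1 : ℂ), p) := by
      rw [ut]
      congr 2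
      ring
    rw [e]
    exact h1
  have hut := hUt hReg hOpn n Ω r C₀ p l' (k₁ * k₂) hD hclos
  have hk : k₁ * k₂ ≠ 0 := mul_ne_zero hk₁ hk₂
  have him : (k₁ * k₂).im = 0 :=
    hKre n Ω r C₀ p l' (k₁ * k₂) hD hp hl' hk hut ⟨_, hq1, right_ne_zero_of_mul h0S⟩
  have hre : (((k₁ * k₂).re : ℝ) : ℂ) = k₁ * k₂ := by
    apply Complex.ext
    · rw [Complex.ofReal_re]
    · rw [Complex.ofReal_im, him]
  have hk' : (k₁ * k₂).re ≠ 0 := by
    intro h1
    apply hk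
    rw [← hre, h1, Complex.ofReal_zero]
  have hI := hInc hTay hQf hT2 n Ω r C₀ p l' (k₁ * k₂).re hD hp hl' hk'
    (by rw [hre]; exact hut)
  exact hLev hQf n Ω r C₀ p l' hD hl' (Cl.ne_zero hl' (hD.gr p hp)) hI

end Gkp
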