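import Pool.Agent.Lib.Gkp.Spec

/-!
# Limits of the normalised automorphisms map the cone into the cone of the closure (module Nz)
-/

set_option autoImplicit false

open Filter Topology Metric Asymptotics

namespace Gkp

namespace NzM

variable {n : ℕ}

theorem bound {Ω : Set (E n)} {r : E n → ℝ} {C₀ : ℝ} (h : Dom Ω r C₀) {Y : V n} (hY : Y ∈ Cone Ω) :
    ‖Y.2‖ ≤ C₀ * ‖Y.1‖ := by
  have h1 : Y.2 = Y.1 • aff Y := by
    have h2 := congrArg Prod.snd (eq_smul_lift hY.1)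
    simpa using h2
  rw [h1, norm_smul, mul_comm C₀]
  exact mul_le_mul_of_nonneg_left (h.bd _ hY.2) (norm_nonneg _)

theorem lim {g : ℕ → V n →L[ℂ] V n} {T : V n →L[ℂ] V n} (hT : Tendsto g atTop (𝓝 T)) (X : V n) :
    Tendsto (fun j => g j X) atTop (𝓝 (T X)) := by
  have h1 : Continuous fun f : V n →L[ℂ] V n => f X := continuous_id.clm_apply continuous_const
  exact (h1.tendsto T).comp hT

theorem fstNe {Ω : Set (E n)} {r : E n → ℝ} {C₀ : ℝ} (h : Dom Ω r C₀) {T : V n →L[ℂ] V n} (hT0 : T ≠ 0)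
    (hb : ∀ X ∈ Cone Ω, ‖(T X).2‖ ≤ C₀ * ‖(T X).1‖) : ∃ W, (T W).1 ≠ 0 := by
  by_contra hW
  push Not at hW
  apply hT0
  have hker : LinearMap.ker (T : V n →ₗ[ℂ] V n) = ⊤ := by
    apply Submodule.eq_top_of_nonempty_interior'
    obtain ⟨x, hx⟩ := h.ne
    refine ⟨((1 : ℂ), x), mem_interior.2 ⟨Cone Ω, ?_, isOpen_cone h.isOpen, lift_mem hx⟩⟩
    intro Y hY
    have h1 := hb Y hY
    rw [hW Y, norm_zero, mul_zero] at h1
    have h2 : (T Y).2 = 0 := norm_le_zero_iff.1 h1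
    exact Prod.ext (hW Y) h2
  refine ContinuousLinearMap.ext fun Y => ?_
  have h3 : Y ∈ LinearMap.ker (T : V n →ₗ[ℂ] V n) := by rw [hker]; trivial
  exact h3

end NzM

theorem pNz : S_Nz := by
  intro n Ω r C₀ g T h hg hT hT0
  have hb : ∀ X ∈ Cone Ω, ‖(T X).2‖ ≤ C₀ * ‖(T X).1‖ := by
    intro X hX
    have h1 : Tendsto (fun j => ‖(g j X).2‖) atTop (𝓝 ‖(T X).2‖) := (NzM.lim hT X).snd_nhds.norm
    have h2 : Tendsto (fun j => C₀ * ‖(g j X).1‖) atTop (𝓝 (C₀ * ‖(T X).1‖)) :=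
      (NzM.lim hT X).fst_nhds.norm.const_mul C₀
    exact le_of_tendsto_of_tendsto' h1 h2 fun j => NzM.bound h (hg j X hX)
  obtain ⟨W, hW⟩ := NzM.fstNe h hT0 hb
  intro X hX
  have hne : (T X).1 ≠ 0 := by
    intro h0
    have hX1 := (NzM.lim hT X).fst_nhds
    have hW1 := (NzM.lim hT W).fst_nhds
    have hz : Tendsto (fun j => -((g j X).1 / (g j W).1)) atTop (𝓝 0) := by
      have h1 := (hX1.div hW1 hW).neg
      rw [h0, zero_div, neg_zero] at h1
      exact h1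
    have hXz : Tendsto (fun j => X + (-((g j X).1 / (g j W).1)) • W) atTop (𝓝 X) := by
      have h1 := (hz.smul_const W).const_add X
      rw [zero_smul, add_zero] at h1
      exact h1
    have h1 : ∀ᶠ j in atTop, X + (-((g j X).1 / (g j W).1)) • W ∈ Cone Ω :=
      hXz.eventually ((isOpen_cone h.isOpen).mem_nhds hX)
    have h2 : ∀ᶠ j in atTop, (g j W).1 ≠ 0 := hW1.eventually_ne hW
    obtain ⟨j, hj1, hj2⟩ := (h1.and h2).exists
    have h3 := (hg j _ hj1).1
    apply h3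
    rw [map_add, map_smul, Prod.fst_add, Prod.smul_fst, smul_eq_mul]
    field_simp
    ring
  refine ⟨hne, hb X hX, ?_⟩
  have h1 : Tendsto (fun j => aff (g j X)) atTop (𝓝 (aff (T X))) :=
    (continuousAt_aff hne).tendsto.comp (NzM.lim hT X)
  exact mem_closure_of_tendsto h1 (Eventually.of_forall fun j => (hg j X hX).2)

end Gkp
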