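import Pool.Agent.Lib.Gkp.Spec

/-!
# Projective automorphisms (MP_16b755_an): openness (module Opn)
-/

set_option autoImplicit false

open Filter Topology Metric Asymptotics

namespace Gkp

theorem pOpn : S_Opn := by
  intro hReg n Ω r C₀ u u' hD hu' h1 h2 hu X hX
  obtain ⟨ha, hcl⟩ := hu X hX
  set y : E n := aff (u X) with hy
  set a : ℂ := (u X).1 with hadef
  have hX2 : u X = a • ((1 : ℂ), y) := eq_smul_lift ha
  have hcont : Continuous (fun z : E n => u' (a • ((1 : ℂ), z))) := by
    apply hu'.comp
    exact (continuous_const.prodMk continuous_id).const_smul a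
  have hval : u' (a • ((1 : ℂ), y)) = X := by rw [← hX2, h2]
  have hop : IsOpen ((fun z : E n => u' (a • ((1 : ℂ), z))) ⁻¹' (Cone Ω)) :=
    (isOpen_cone hD.isOpen).preimage hcont
  have hin : y ∈ interior (closure Ω) := by
    rw [mem_interior]
    refine ⟨_, ?_, hop, ?_⟩
    · intro z hz
      have h3 := (hu _ hz).2
      have h4 : u (u' (a • ((1 : ℂ), z))) = a • ((1 : ℂ), z) := h1 _
      have h5 : aff (u (u' (a • ((1 : ℂ), z)))) = z := by
        rw [h4, aff_smul ha, aff_lift]
      rw [h5] at h3
      exact h3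
    · change u' (a • ((1 : ℂ), y)) ∈ Cone Ω
      rw [hval]
      exact hX
  have hreg := hReg n Ω r C₀ hD
  rw [hreg] at hin
  exact hin

end Gkp
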