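import Pool.Agent.Lib.Gkp.Spec

/-!
# The second derivative as a real quadratic form on `ℂ^n` (MP_16b755_an)
-/

set_option autoImplicit false

open Filter Topology Metric Asymptotics

namespace Gkp

namespace QfM

variable {n : ℕ}

/-- A complex multiple in terms of real multiples. -/
theorem csmul (ζ : ℂ) (v : E n) : ζ • v = ζ.re • v + ζ.im • (Complex.I • v) := by
  ext i
  simp only [PiLp.smul_apply, PiLp.add_apply, smul_eq_mul, Complex.real_smul]
  conv_lhs => rw [← Complex.re_add_im ζ]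
  ring

theorem sq_re (α ζ : ℂ) : (α * ζ ^ 2).re = α.re * (ζ.re ^ 2 - ζ.im ^ 2) - 2 * α.im * (ζ.re * ζ.im) := by
  simp only [pow_two, Complex.mul_re, Complex.mul_im]
  ring

theorem norm_sq (ζ : ℂ) : ‖ζ‖ ^ 2 = ζ.re ^ 2 + ζ.im ^ 2 := by
  rw [← Complex.normSq_eq_norm_sq, Complex.normSq_apply]
  ring

end QfM

open QfM

theorem pQf : S_Qf := by
  intro n r y
  refine ⟨?_, ?_, ?_, ?_, ?_⟩
  · intro t z
    simp only [Q, map_smul, ContinuousLinearMap.smul_apply, smul_eq_mul]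
    ring
  · intro v
    refine ⟨⟨(Q r y v - Q r y (Complex.I • v)) / 2,
      -((fderiv ℝ (fderiv ℝ r) y v (Complex.I • v) + fderiv ℝ (fderiv ℝ r) y (Complex.I • v) v) / 2)⟩,
      fun ζ => ?_⟩
    rw [sq_re, norm_sq, Q, csmul ζ v]
    simp only [Q, map_add, map_smul, ContinuousLinearMap.add_apply, ContinuousLinearMap.smul_apply,
      smul_eq_mul]
    ring
  · intro v w
    refine ⟨⟨fderiv ℝ (fderiv ℝ r) y w v + fderiv ℝ (fderiv ℝ r) y v w,
      -(fderiv ℝ (fderiv ℝ r) y w (Complex.I • v) + fderiv ℝ (fderiv ℝ r) y (Complex.I • v) w)⟩,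
      fun ζ => ?_⟩
    rw [Complex.mul_re, csmul ζ v]
    simp only [Q, map_add, map_smul, ContinuousLinearMap.add_apply, ContinuousLinearMap.smul_apply,
      smul_eq_mul]
    ring
  · have h : Continuous fun z : E n => fderiv ℝ (fderiv ℝ r) y z :=
      (fderiv ℝ (fderiv ℝ r) y).continuous
    exact h.clm_apply continuous_id
  · refine ⟨2 * ‖fderiv ℝ (fderiv ℝ r) y‖, by positivity, fun z w => ?_⟩
    have h1 : Q r y (z + w) - Q r y z = fderiv ℝ (fderiv ℝ r) y z w + fderiv ℝ (fderiv ℝ r) y w z +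
        fderiv ℝ (fderiv ℝ r) y w w := by
      simp only [Q, map_add, ContinuousLinearMap.add_apply]
      ring
    have h2 : ∀ a b : E n, |fderiv ℝ (fderiv ℝ r) y a b| ≤ ‖fderiv ℝ (fderiv ℝ r) y‖ * ‖a‖ * ‖b‖ := by
      intro a b
      rw [← Real.norm_eq_abs]
      exact (fderiv ℝ (fderiv ℝ r) y).le_opNorm₂ a b
    have h3 := h2 z w
    have h4 := h2 w z
    have h5 := h2 w w
    rw [h1]
    have h6 : |fderiv ℝ (fderiv ℝ r) y z w + fderiv ℝ (fderiv ℝ r) y w z + fderiv ℝ (fderiv ℝ r) y w w| ≤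
        |fderiv ℝ (fderiv ℝ r) y z w| + |fderiv ℝ (fderiv ℝ r) y w z| +
          |fderiv ℝ (fderiv ℝ r) y w w| := abs_add_three _ _ _
    have h7 : 0 ≤ ‖fderiv ℝ (fderiv ℝ r) y‖ * (‖w‖ * ‖w‖) := by positivity
    nlinarith [h3, h4, h5, h6, h7]

end Gkp
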