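import Pool.Agent.Lib.Gkp.Spec

/-!
# Regular openness of smoothly bounded domains (statement `S_Reg`)
-/

set_option autoImplicit false

open Filter Topology Metric Asymptotics

namespace Gkp

theorem pReg : S_Reg := by
  intro n Ω r C₀ h
  refine Set.Subset.antisymm ?_ ?_
  · intro x hx
    by_contra hxΩ
    have hcl : x ∈ closure Ω := interior_subset hx
    have hfr : x ∈ frontier Ω := by
      refine ⟨hcl, ?_⟩
      rw [h.isOpen.interior_eq]
      exact hxΩ
    have hr0 : r x = 0 := h.r_eq hfr
    have hD : fderiv ℝ r x ≠ 0 := h.gr x hfr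
    obtain ⟨z, hz⟩ : ∃ z, 0 < fderiv ℝ r x z := by
      by_contra hcon
      push Not at hcon
      refine hD (ContinuousLinearMap.ext fun z => ?_)
      have h1 := hcon z
      have h2 := hcon (-z)
      rw [map_neg] at h2
      have h3 : (0 : E n →L[ℝ] ℝ) z = 0 := rfl
      rw [h3]
      linarith
    have hle : ∀ y ∈ closure Ω, r y ≤ 0 := by
      have h4 : closure Ω ⊆ {y | r y ≤ 0} := by
        refine closure_minimal ?_ (isClosed_le h.sm.continuous continuous_const)
        intro y hy
        rw [h.eq, Set.mem_ofPred_eq] at hy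
        exact hy.le
      exact fun y hy => h4 hy
    have hdiff : DifferentiableAt ℝ r x := (h.sm.differentiable (by norm_num)) x
    have hline : HasDerivAt (fun t : ℝ => x + t • z) z 0 := by
      have h1 : HasDerivAt (fun t : ℝ => t • z) ((1 : ℝ) • z) 0 :=
        (hasDerivAt_id (0 : ℝ)).smul_const z
      rw [one_smul] at h1
      exact h1.const_add x
    have hcomp : HasDerivAt (fun t : ℝ => r (x + t • z)) (fderiv ℝ r x z) 0 := by
      have h2 : HasFDerivAt r (fderiv ℝ r x) (x + (0 : ℝ) • z) := by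
        rw [zero_smul, add_zero]
        exact hdiff.hasFDerivAt
      exact h2.comp_hasDerivAt (0 : ℝ) hline
    have hev : ∀ᶠ t : ℝ in 𝓝 0, x + t • z ∈ interior (closure Ω) := by
      have hc : ContinuousAt (fun t : ℝ => x + t • z) 0 := hline.continuousAt
      refine hc.eventually (isOpen_interior.mem_nhds ?_)
      show x + (0 : ℝ) • z ∈ interior (closure Ω)
      rw [zero_smul, add_zero]
      exact hx
    have hev2 : ∀ᶠ t : ℝ in 𝓝[>] 0, x + t • z ∈ interior (closure Ω) :=
      hev.filter_mono nhdsWithin_le_nhds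
    have hslope : Tendsto (slope (fun t : ℝ => r (x + t • z)) 0) (𝓝[>] 0)
        (𝓝 (fderiv ℝ r x z)) :=
      (hasDerivAt_iff_tendsto_slope.1 hcomp).mono_left
        (nhdsWithin_mono _ (fun t ht => ne_of_gt ht))
    have hpos : ∀ᶠ t : ℝ in 𝓝[>] 0, 0 < slope (fun t : ℝ => r (x + t • z)) 0 t :=
      hslope.eventually (lt_mem_nhds hz)
    have hgt : ∀ᶠ t : ℝ in 𝓝[>] (0 : ℝ), 0 < t := eventually_mem_nhdsWithin
    obtain ⟨t, h1, h2, h3⟩ := (hev2.and (hpos.and hgt)).exists
    have h4 : r (x + t • z) ≤ 0 := hle _ (interior_subset h1)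
    rw [slope_def_field, zero_smul, add_zero, hr0, sub_zero, sub_zero] at h2
    have h5 : 0 < r (x + t • z) := by
      have h6 := mul_pos h2 h3
      rwa [div_mul_cancel₀ _ h3.ne'] at h6
    linarith
  · exact h.isOpen.subset_interior_iff.2 subset_closure

end Gkp
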