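import Pool.Agent.Lib.Gkp.Spec

/-!
# Projective automorphisms (MP_16b755_an): a limit map which vanishes at a boundary point
-/

set_option autoImplicit false

open Filter Topology Metric Asymptotics

namespace Gkp

namespace RkM

/-- The first step: vectors outside of the complex tangent hyperplane. -/
lemma out {n : ℕ} {Ω : Set (E n)} {r : E n → ℝ} {C₀ : ℝ} {T : V n →L[ℂ] V n} {y : E n}
    {l : E n →L[ℂ] ℂ} (hE : S_Ent) (hD : Dom Ω r C₀) (hA : Adm Ω C₀ T) (hy : y ∈ frontier Ω)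
    (hl : Cl r y l) (hT : T ((1 : ℂ), y) = 0) (X : V n) (hX : Ly l y X ≠ 0) :
    (T X).1 ≠ 0 ∧ ‖(T X).2‖ ≤ C₀ * ‖(T X).1‖ := by
  have h1 := hE n Ω r C₀ y l hD hy hl X hX
  obtain ⟨t, ht, ht0⟩ := (h1.and self_mem_nhdsWithin).exists
  have ht1 : (0 : ℝ) < t := ht0
  have hc : (t : ℂ) / Ly l y X ≠ 0 := div_ne_zero (by exact_mod_cast ht1.ne') hX
  obtain ⟨h2, h3, -⟩ := hA _ ht
  have h4 : T (((1 : ℂ), y) - ((t : ℂ) / Ly l y X) • X) = (-((t : ℂ) / Ly l y X)) • T X := by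
    rw [map_sub, map_smul, hT, zero_sub, neg_smul]
  rw [h4] at h2 h3
  rw [Prod.smul_fst, smul_eq_mul] at h2 h3
  rw [Prod.smul_snd, norm_smul, norm_mul, norm_neg] at h3
  refine ⟨right_ne_zero_of_mul h2, ?_⟩
  have h5 : 0 < ‖(t : ℂ) / Ly l y X‖ := norm_pos_iff.mpr hc
  have h6 : ‖(t : ℂ) / Ly l y X‖ * ‖(T X).2‖ ≤ ‖(t : ℂ) / Ly l y X‖ * (C₀ * ‖(T X).1‖) := by
    calc _ ≤ _ := h3
      _ = _ := by ring
  exact le_of_mul_le_mul_left h6 h5

end RkM

open RkM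

theorem pRk : S_Rk := by
  intro hE n Ω r C₀ T y l hD hA hy hl hT
  have ha := out hE hD hA hy hl hT
  have hl0 : l ≠ 0 := hl.ne_zero (hD.gr y hy)
  obtain ⟨e, he⟩ : ∃ e, l e = 1 := by
    obtain ⟨e, he⟩ := ContinuousLinearMap.exists_ne_zero hl0
    refine ⟨(l e)⁻¹ • e, ?_⟩
    rw [map_smul, smul_eq_mul, inv_mul_cancel₀ he]
  set X₁ : V n := ((0 : ℂ), e) with hX₁
  have h1 : Ly l y X₁ = 1 := by simp [Ly, hX₁, he]
  have hb : ∀ X : V n, ‖(T X).2‖ ≤ C₀ * ‖(T X).1‖ := by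
    intro X
    by_cases hX : Ly l y X = 0
    · have hc : Continuous fun t : ℝ => T (X + (t : ℂ) • X₁) := by fun_prop
      have hc0 : Tendsto (fun t : ℝ => T (X + (t : ℂ) • X₁)) (𝓝[>] 0) (𝓝 (T X)) := by
        have := (hc.tendsto 0).mono_left (nhdsWithin_le_nhds (s := Set.Ioi (0 : ℝ)))
        simpa using this
      have hc1 : Tendsto (fun t : ℝ => ‖(T (X + (t : ℂ) • X₁)).2‖) (𝓝[>] 0) (𝓝 ‖(T X).2‖) :=
        ((continuous_snd.tendsto _).comp hc0).norm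
      have hc2 : Tendsto (fun t : ℝ => C₀ * ‖(T (X + (t : ℂ) • X₁)).1‖) (𝓝[>] 0)
          (𝓝 (C₀ * ‖(T X).1‖)) :=
        ((continuous_fst.tendsto _).comp hc0).norm.const_mul _
      refine le_of_tendsto_of_tendsto hc1 hc2 ?_
      filter_upwards [self_mem_nhdsWithin] with t ht
      have ht1 : (0 : ℝ) < t := ht
      refine (ha _ ?_).2
      rw [Ly_add, Ly_smul, hX, h1, zero_add, mul_one]
      exact_mod_cast ht1.ne'
    · exact (ha X hX).2
  have hz : ∀ X : V n, Ly l y X = 0 → T X = 0 := by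
    intro X hX
    by_contra hne
    have h2 : (T X).1 ≠ 0 := by
      intro h3
      apply hne
      have h4 := hb X
      rw [h3, norm_zero, mul_zero] at h4
      exact Prod.ext h3 (norm_le_zero_iff.mp h4)
    have h5 : Ly l y (X₁ + (-((T X₁).1 / (T X).1)) • X) ≠ 0 := by
      rw [Ly_add, Ly_smul, hX, h1, mul_zero, add_zero]
      exact one_ne_zero
    apply (ha _ h5).1
    rw [map_add, map_smul, Prod.fst_add, Prod.smul_fst, smul_eq_mul, neg_mul,
      div_mul_cancel₀ _ h2, add_neg_cancel]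
  have hk : (T X₁).1 ≠ 0 := (ha X₁ (by rw [h1]; exact one_ne_zero)).1
  refine ⟨(T X₁).1, aff (T X₁), hk, fun X => ?_⟩
  have h6 : T (X + (-(Ly l y X)) • X₁) = 0 := by
    apply hz
    rw [Ly_add, Ly_smul, h1, mul_one, add_neg_cancel]
  rw [map_add, map_smul, neg_smul, ← sub_eq_add_neg, sub_eq_zero] at h6
  rw [h6]
  conv_lhs => rw [eq_smul_lift hk]
  rw [smul_smul, mul_comm]

end Gkp
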