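import Pool.Agent.Lib.Gkp.Defs

/-!
# Projective automorphisms of smoothly bounded domains (MP_16b755_an): statements and proofs

THEOREM P.  A bounded domain `Ω = {r < 0}` of `ℂ^n` with smooth boundary and projective automorphisms `φ_j` with `φ_j q → p` in the boundary
(`q ∈ Ω`) is strongly pseudoconvex at `p`, so `p` has type `2`.

Every module proves one statement `S_X` (theorem `pX : S_X`); the statements which are used are hypotheses.  Elementary lemmas about `aff`, `Cone`,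
`Ly`, `ut`, `Dom` are in `Defs.lean` (`aff_smul`, `cone_smul`, `aff_lift`, `lift_mem`, `eq_smul_lift`, `continuousAt_aff`, `isOpen_cone`, `Dom.isOpen`,
`Dom.r_eq`, `Ly_add`, `Ly_smul`, `Ly_lift`, `ut_ut`, `Cl.ne_zero`).
-/

set_option autoImplicit false

open Filter Topology Metric Asymptotics

namespace Gkp

/-- **Lc.** PROOF. `l z = D z - I * D (I • z)` with `D = fderiv ℝ r y` (Mathlib: `StrongDual.extendRCLike` or by hand with `LinearMap.mkContinuous`, or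
`LinearMap.toContinuousLinearMap` as `E n` is finite dimensional). -/
def S_Lc : Prop := ∀ (n : ℕ) (r : E n → ℝ) (y : E n), ∃ l : E n →L[ℂ] ℂ, Cl r y l

/-- **Reg.** PROOF. `Ω` is open (`Dom.isOpen`), so `Ω ⊆ interior (closure Ω)`.  Let `x` be in the interior of the closure and not in `Ω`.  Then
`x ∈ frontier Ω` (it is in the closure), `r x = 0` (`Dom.r_eq`), `D = fderiv ℝ r x ≠ 0`; choose `z` with `D z > 0` (replace `z` by `-z`).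
`t ↦ r (x + t z)` has the derivative `D z > 0` at `0`, so `r (x + t z) > 0` for small `t > 0`; but `x + t z ∈ closure Ω` for small `t`, where `r ≤ 0`
(`closure_minimal`). Contradiction. -/
def S_Reg : Prop := ∀ (n : ℕ) (Ω : Set (E n)) (r : E n → ℝ) (C₀ : ℝ), Dom Ω r C₀ → interior (closure Ω) = Ω

/-- **Ext.** Normalisation and a convergent subsequence.
PROOF. `V n` is not trivial (`ℂ` is a factor), so `N j = ‖(g₀ j : V n →L[ℂ] V n)‖ > 0`.  Put `a j = (N j)⁻¹ • g₀ j`, `b j = N j • (g₀ j).symm` (as continuous linear maps, scalars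
cast to `ℂ`), `σ j = ‖b j‖`; `a j (b j X) = X = b j (a j X)`, `‖a j‖ = 1`, `σ j ≥ 1` (`X = a j (b j X)` for `X ≠ 0`, `‖X‖ ≤ σ j ‖X‖`).
The sequence `(a j, (σ j)⁻¹ • b j, (σ j)⁻¹)` lies in the compact set `closedBall 0 1 ×ˢ closedBall 0 1 ×ˢ Icc 0 1` of
`(V n →L[ℂ] V n) × (V n →L[ℂ] V n) × ℝ` (finite dimensional, `ProperSpace`); `IsCompact.tendsto_subseq` gives a subsequence `ψ` with limit `(T, S, eps)`;
`‖T‖ = ‖S‖ = 1`.  `g j = a (ψ j)`, `h j = b (ψ j)`, `s j = σ (ψ j)`.  `g j ((s j)⁻¹ • h j X) = (s j)⁻¹ • X`; limit: `T (S X) = eps • X` (evaluation is continuous); the same for `S (T X)`.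
`gm`: for `X ∈ Cone Ω`, `X = X.1 • (1, x)`, `x = aff X ∈ Ω` (`eq_smul_lift`), `g₀ j X = X.1 • g₀ j (1, x)`, so the first component is not `0` and
`aff (g₀ j X) = φ j x ∈ Ω` (`aff_smul`); then `cone_smul`.
`hm`: for `X ∈ Cone Ω`, `x = aff X = φ j x'` with `x' ∈ Ω`, `g₀ j (1, x') = c • (1, x)` with `c ≠ 0` (`eq_smul_lift`), so `(g₀ j).symm (1, x) = c⁻¹ • (1, x')`, which is in the cone
(`lift_mem`, `cone_smul`).  `aff (g j (1, q)) = φ (ψ j) q → p`. -/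
def S_Ext : Prop := ∀ (n : ℕ) (Ω : Set (E n)) (r : E n → ℝ) (C₀ : ℝ) (φ : ℕ → E n → E n) (g₀ : ℕ → V n ≃L[ℂ] V n) (q p : E n),
  Dom Ω r C₀ → (∀ j, Set.BijOn (φ j) Ω Ω) → (∀ j, ∀ x ∈ Ω, (g₀ j ((1 : ℂ), x)).1 ≠ 0 ∧ φ j x = aff (g₀ j ((1 : ℂ), x))) → q ∈ Ω →
  Tendsto (fun j => φ j q) atTop (𝓝 p) →
  ∃ (g h : ℕ → V n →L[ℂ] V n) (s : ℕ → ℝ) (T S : V n →L[ℂ] V n) (eps : ℝ), Sq Ω g h s T S ∧
    Tendsto (fun j => aff (g j ((1 : ℂ), q))) atTop (𝓝 p) ∧ Tendsto (fun j => (s j)⁻¹) atTop (𝓝 eps) ∧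
    (∀ X, T (S X) = (eps : ℂ) • X) ∧ ∀ X, S (T X) = (eps : ℂ) • X

/-- **Nz.** PROOF. For `X ∈ Cone Ω`: `g j X → T X`, `g j X ∈ Cone Ω`, so `‖(g j X).2‖ ≤ C₀ ‖(g j X).1‖` (`(g j X).2 = (g j X).1 • aff (g j X)`, `bd`); limit: `‖(T X).2‖ ≤ C₀ ‖(T X).1‖`.
Suppose `(T X).1 = 0` for one `X ∈ Cone Ω`.  (a) There is `W` with `(T W).1 ≠ 0`: otherwise `T Z = 0` for all `Z` in the open non-empty set `Cone Ω` (by the inequality), so for every `Z` and small `t ≠ 0`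
`0 = T (X + t Z) = T X + t T Z = t T Z`, `T = 0`: contradiction.  (b) For large `j`, `(g j W).1 ≠ 0`, and `z j = -(g j X).1 / (g j W).1 → 0`, so `X + z j • W ∈ Cone Ω` for large `j`
(`isOpen_cone`), but `(g j (X + z j • W)).1 = 0`: contradiction to `g j (..) ∈ Cone Ω`.  So `(T X).1 ≠ 0`, and `aff (g j X) → aff (T X)` (`continuousAt_aff`), a limit of points of `Ω`. -/
def S_Nz : Prop := ∀ (n : ℕ) (Ω : Set (E n)) (r : E n → ℝ) (C₀ : ℝ) (g : ℕ → V n →L[ℂ] V n) (T : V n →L[ℂ] V n), Dom Ω r C₀ →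
  (∀ j, ∀ X ∈ Cone Ω, g j X ∈ Cone Ω) → Tendsto g atTop (𝓝 T) → T ≠ 0 → Adm Ω C₀ T

/-- **Opn.** Uses `Reg`.
PROOF. Let `X ∈ Cone Ω`, `y = aff (u X)`, `a = (u X).1 ≠ 0`, so `u X = a • (1, y)` (`eq_smul_lift`).  The map `z ↦ u' (a • (1, z))` is continuous with the value `u' (u X) = X` at `y`, so for `z`
near `y` it is in the open set `Cone Ω`, and then `u (u' (a • (1, z))) = a • (1, z)`, so `z = aff (a • (1, z)) ∈ closure Ω`.  So `y ∈ interior (closure Ω) = Ω`. -/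
def S_Opn : Prop := S_Reg → ∀ (n : ℕ) (Ω : Set (E n)) (r : E n → ℝ) (C₀ : ℝ) (u u' : V n → V n), Dom Ω r C₀ → Continuous u' →
  (∀ X, u (u' X) = X) → (∀ X, u' (u X) = X) → (∀ X ∈ Cone Ω, (u X).1 ≠ 0 ∧ aff (u X) ∈ closure Ω) → ∀ X ∈ Cone Ω, aff (u X) ∈ Ω

/-- **Inf.** Uses `Reg`, `Opn`.  PROOF. If `eps ≠ 0` apply `Opn` to `u = T`, `u' = eps⁻¹ • S`: `aff (T (1, q)) ∈ Ω`, but `Ω` is open and so disjoint from its frontier. -/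
def S_Inf : Prop := S_Reg → S_Opn → ∀ (n : ℕ) (Ω : Set (E n)) (r : E n → ℝ) (C₀ : ℝ) (T S : V n →L[ℂ] V n) (eps : ℝ) (q : E n), Dom Ω r C₀ →
  Adm Ω C₀ T → (∀ X, T (S X) = (eps : ℂ) • X) → (∀ X, S (T X) = (eps : ℂ) • X) → q ∈ Ω → aff (T ((1 : ℂ), q)) ∈ frontier Ω → eps = 0

/-- **Ent.** Complex directions which are not tangential enter the domain.
PROOF. Let `L = Ly l y X ≠ 0`, `c = -t/L` (`t` real).  For small `t`, `1 + c X.1 ≠ 0` and `F t = aff ((1, y) + c X) = (1 + c X.1)⁻¹ • (y + c X.2)`; `F 0 = y`, and `F` has at `t = 0` the derivative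
`-L⁻¹ • (X.2 - X.1 • y)` (`F t = y + (c/(1 + c X.1)) • (X.2 - X.1 • y)`).  So `r ∘ F` has at `0` the value `r y = 0` (`Dom.r_eq`) and the derivative
`fderiv ℝ r y (-L⁻¹ • (X.2 - X.1 • y)) = Re (l (..)) = Re (-L⁻¹ L) = -1`.  Hence `r (F t) < 0` for small `t > 0`. -/
def S_Ent : Prop := ∀ (n : ℕ) (Ω : Set (E n)) (r : E n → ℝ) (C₀ : ℝ) (y : E n) (l : E n →L[ℂ] ℂ), Dom Ω r C₀ → y ∈ frontier Ω → Cl r y l →
  ∀ X : V n, Ly l y X ≠ 0 → ∀ᶠ t : ℝ in 𝓝[>] 0, ((1 : ℂ), y) - ((t : ℂ) / Ly l y X) • X ∈ Cone Ω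

/-- **Rk.** Uses `Ent`.
PROOF. (a) If `L = Ly l y X ≠ 0`: by `Ent` there is `t > 0` with `Z = (1, y) - (t/L) • X ∈ Cone Ω`; `T Z = -(t/L) • T X` (`T (1, y) = 0`), so `Adm` for `Z` gives `(T X).1 ≠ 0` and
`‖(T X).2‖ ≤ C₀ ‖(T X).1‖`.  (b) `l ≠ 0` (`Cl.ne_zero`, `Dom.gr`); let `X₁` be `(0, e)` with `l e = 1`, `Ly l y X₁ = 1`.  The inequality `‖(T X).2‖ ≤ C₀ ‖(T X).1‖` holds for ALL `X`: if `Ly l y X = 0`, apply (a) to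
`X + t X₁` (`Ly = t ≠ 0`) and let `t → 0` (continuity).  (c) If `Ly l y X = 0` then `T X = 0`: suppose not; then `(T X).1 ≠ 0` by (b); with `b = (T X₁).1/(T X).1` the vector `Z = X₁ - b • X` has
`Ly l y Z = 1 ≠ 0` and `(T Z).1 = 0`, against (a).  (d) For every `X`, `X - (Ly l y X) • X₁` has `Ly = 0`, so `T X = (Ly l y X) • T X₁`; `k = (T X₁).1 ≠ 0` by (a), `T X₁ = k • (1, w)`, `w = aff (T X₁)` (`eq_smul_lift`). -/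
def S_Rk : Prop := S_Ent → ∀ (n : ℕ) (Ω : Set (E n)) (r : E n → ℝ) (C₀ : ℝ) (T : V n →L[ℂ] V n) (y : E n) (l : E n →L[ℂ] ℂ), Dom Ω r C₀ →
  Adm Ω C₀ T → y ∈ frontier Ω → Cl r y l → T ((1 : ℂ), y) = 0 → ∃ (k : ℂ) (w : E n), k ≠ 0 ∧ ∀ X, T X = (k * Ly l y X) • ((1 : ℂ), w)

/-- **Bj.** PROOF. `r` has the strict derivative `D = fderiv ℝ r y` at `y` (`ContDiff.contDiffAt`, `ContDiffAt.hasStrictFDerivAt`).  For large `j`, `(Y j).1 ≠ 0`; `x j = aff (Y j) → aff Y₀ = y` (`continuousAt_aff`) and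
`x' j = aff (Y j + (c/s j) • (0, e)) = x j + d j`, `d j = ((c / s j) * ((Y j).1)⁻¹) • e → 0` (the first component does not change).  Strict differentiability: `r (x' j) - r (x j) - D (d j) = o(‖d j‖)`, and
`s j * ‖d j‖ = ‖c‖ ‖(Y j).1‖⁻¹ ‖e‖` is bounded, so `s j (r (x' j) - r (x j) - D (d j)) → 0`; `s j * D (d j) = D ((c * ((Y j).1)⁻¹) • e) → D ((c * (Y₀.1)⁻¹) • e) = Re (l ((c * (Y₀.1)⁻¹) • e)) = Re (c * l e / Y₀.1)`. -/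
def S_Bj : Prop := ∀ (n : ℕ) (r : E n → ℝ) (y : E n) (l : E n →L[ℂ] ℂ), ContDiff ℝ 2 r → Cl r y l → ∀ (Y : ℕ → V n) (Y₀ : V n) (s : ℕ → ℝ) (c : ℂ) (e : E n),
  Tendsto Y atTop (𝓝 Y₀) → Y₀.1 ≠ 0 → aff Y₀ = y → (∀ j, 0 < s j) → Tendsto s atTop atTop →
  Tendsto (fun j => s j * (r (aff (Y j + (c / s j) • ((0 : ℂ), e))) - r (aff (Y j)))) atTop (𝓝 ((c * l e / Y₀.1).re))

/-- **Grp.** The one-parameter group.  Uses `Bj`.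
PROOF. `l ≠ 0` (`Cl.ne_zero`, `Dom.gr`); let `l e = 1`, `v₀ = (0, e)`, `b j = g j v₀ → T v₀ = k • (1, p)` (`Ly l y v₀ = 1`).  Fix `X ∈ Cone Ω`; `Y j = (s j)⁻¹ • h j X → S X`, `m = (S X).1 ≠ 0` (`Adm` for `S`),
`aff (S X) = y`.  For `c : ℂ`: `Z_j(c) = Y j + (c / s j) • v₀ = (s j)⁻¹ • h j (X + c • b j)`.  `B_j(c) = s j * r (aff Z_j(c))`; by `Bj` `B_j(c) - B_j(0) → Re (c/m)`, `B_j(0) = s j * r (aff (Y j))`.
Step 1: `X + (c₀ m k) • (1, p) ∈ Cone Ω` for some real `c₀ > 0` (open), so with `c = c₀ m`, `X + c • b j ∈ Cone Ω` for large `j`, so `Z_j(c) ∈ Cone Ω` (`hm`, `cone_smul`), `B_j(c) < 0`, and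
`B_j(0) = B_j(c) - (B_j(c) - B_j(0)) < -c₀/2` for large `j` (the difference tends to `c₀`).
Step 2: let `c = I t m`: `B_j(c) - B_j(0) → Re (I t) = 0`, so `B_j(c) < 0` for large `j`: `aff Z_j(c) ∈ Ω`; the first component of `Z_j(c)` is that of `Y j`, not `0` (`Y j ∈ Cone Ω`).  So
`Z_j(c) ∈ Cone Ω`, and `X + c • b j = g j (s j • Z_j(c)) ∈ Cone Ω` (`gh`, `gm`, `cone_smul`).  The limit is `X + c • (k • (1, p))`, in the closure (`mem_closure_of_tendsto`). -/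
def S_Grp : Prop := S_Bj → ∀ (n : ℕ) (Ω : Set (E n)) (r : E n → ℝ) (C₀ : ℝ) (g h : ℕ → V n →L[ℂ] V n) (s : ℕ → ℝ) (T S : V n →L[ℂ] V n) (y p : E n)
  (l : E n →L[ℂ] ℂ) (k : ℂ), Dom Ω r C₀ → Sq Ω g h s T S → Tendsto s atTop atTop → Adm Ω C₀ S → y ∈ frontier Ω → Cl r y l →
  (∀ X, T X = (k * Ly l y X) • ((1 : ℂ), p)) → (∀ X, S X = (S X).1 • ((1 : ℂ), y)) →
  ∀ (t : ℝ), ∀ X ∈ Cone Ω, X + (Complex.I * t * k * (S X).1) • ((1 : ℂ), p) ∈ closure (Cone Ω)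

/-- **Ut.** Uses `Reg`, `Opn`.
PROOF. `Opn` for `u = ut l p k t`, `u' = ut l p k (-t)` (`ut_ut`, also for `-t`; continuous).  Hypothesis of `Opn`: for `X ∈ Cone Ω`, `Y = ut l p k t X ∈ closure (Cone Ω)`.  On `Cone Ω` `‖Y.2‖ ≤ C₀ ‖Y.1‖`
(`bd`), a closed condition, so it holds for `Y`.  `Y ≠ 0` (else `X = ut l p k (-t) 0 = 0`, but `X.1 ≠ 0`), so `Y.1 ≠ 0`, and `aff` is continuous at `Y` and maps `Cone Ω` into `Ω`, so `aff Y ∈ closure Ω`. -/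
def S_Ut : Prop := S_Reg → S_Opn → ∀ (n : ℕ) (Ω : Set (E n)) (r : E n → ℝ) (C₀ : ℝ) (p : E n) (l : E n →L[ℂ] ℂ) (k : ℂ), Dom Ω r C₀ →
  (∀ t : ℝ, ∀ X ∈ Cone Ω, ut l p k t X ∈ closure (Cone Ω)) → ∀ t : ℝ, ∀ X ∈ Cone Ω, ut l p k t X ∈ Cone Ω

/-- **Kre.** PROOF. Let `X₁ ∈ Cone Ω`, `Ly l p X₁ ≠ 0`, `X = (Ly l p X₁)⁻¹ • X₁ ∈ Cone Ω` (`cone_smul`), `Ly l p X = 1`; `a = X.1`, `w = X.2 - a • p`, `l w = 1`.  `ut l p k t X = (a + I t k, (a + I t k) • p + w)` is in `Cone Ω`, so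
`a + I t k ≠ 0` and `r (p + z t) < 0`, `z t = (a + I t k)⁻¹ • w`, for all real `t`.  For `t → +∞`: `t • z t → (I k)⁻¹ • w`, `t * r (p + z t) → fderiv ℝ r p ((I k)⁻¹ • w) = Re ((I k)⁻¹)` (`r p = 0`, differentiability at `p`), so
`Re ((I k)⁻¹) ≤ 0`.  The same for `-t`: `(-t) • z (-t) → (I k)⁻¹ • w`, `(-t) * r (p + z (-t)) → Re ((I k)⁻¹)`, and this is `≥ 0`.  So `Re ((I k)⁻¹) = 0`, `(I k)⁻¹ = conj (I k)/|k|²`, `Re (I k) = 0`, `k.im = 0`. -/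
def S_Kre : Prop := ∀ (n : ℕ) (Ω : Set (E n)) (r : E n → ℝ) (C₀ : ℝ) (p : E n) (l : E n →L[ℂ] ℂ) (k : ℂ), Dom Ω r C₀ → p ∈ frontier Ω → Cl r p l → k ≠ 0 →
  (∀ t : ℝ, ∀ X ∈ Cone Ω, ut l p k t X ∈ Cone Ω) → (∃ X ∈ Cone Ω, Ly l p X ≠ 0) → k.im = 0

/-- **Tay.** Second order Taylor formula (compare `KP/L/Tay.lean`, the same statement for `Fin n → ℂ`, `ContDiffAt`).
PROOF. `f v = r (c + v) - r c - dr v - Q v / 2` has near `0` the derivative `fderiv r (c + v) - fderiv r c - fderiv (fderiv r) c v` (the second derivative is symmetric: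
`ContDiffAt.isSymmSndFDerivAt`), of norm `≤ η ‖v‖` for `‖v‖ < ρ` (`fderiv r` is differentiable at `c`); mean value inequality on the ball. -/
def S_Tay : Prop := ∀ (n : ℕ) (r : E n → ℝ) (c : E n), ContDiff ℝ 2 r → ∀ η > 0, ∃ ρ > 0,
  ∀ v : E n, ‖v‖ < ρ → |r (c + v) - r c - fderiv ℝ r c v - 1 / 2 * Q r c v| ≤ η * ‖v‖ ^ 2

/-- **Qf.** The quadratic form. PROOF. `B = fderiv ℝ (fderiv ℝ r) y` is real bilinear (no symmetry needed).  First: clear.  Second: `α = (Q v - Q (I v))/2 - I * M/2`, `M = B v (I v) + B (I v) v`: with `ζ = a + b I`,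
`ζ • v = a • v + b • (I • v)`, `Q (ζ v) = a² Q v + a b M + b² Q (I v)` and `Re (α ζ²) = (Q v - Q (I v))/2 * (a² - b²) + M a b`.  Third: `β = N 1 - I * N I` with `N ζ = B w (ζ v) + B (ζ v) w` real linear in `ζ`. -/
def S_Qf : Prop := ∀ (n : ℕ) (r : E n → ℝ) (y : E n), (∀ (t : ℝ) (z : E n), Q r y (t • z) = t ^ 2 * Q r y z) ∧
  (∀ v : E n, ∃ α : ℂ, ∀ ζ : ℂ, Q r y (ζ • v) = (α * ζ ^ 2).re + (Q r y v + Q r y (Complex.I • v)) / 2 * ‖ζ‖ ^ 2) ∧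
  (∀ v w : E n, ∃ β : ℂ, ∀ ζ : ℂ, Q r y (w + ζ • v) = Q r y w + (β * ζ).re + Q r y (ζ • v)) ∧
  Continuous (fun z => Q r y z) ∧ ∃ C : ℝ, 0 ≤ C ∧ ∀ z w : E n, |Q r y (z + w) - Q r y z| ≤ C * (‖z‖ + ‖w‖) * ‖w‖

/-- **T2.** Uses `Tay`, `Qf`.
PROOF. `z t = (a + I t k)⁻¹ • w`, `‖a + I t k‖ ≥ |t| |k| - ‖a‖`, so `z t → 0` and `t • z t → (I k)⁻¹ • w`; `Q (t • z t) → Q ((I k)⁻¹ • w) = Q ((-k⁻¹) • (I • w)) = (k^2)⁻¹ Q (I • w)` (`Qf`: continuity, homogeneity).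
`fderiv ℝ r p (z t) = Re ((a + I t k)⁻¹) = a.re / ‖a + I t k‖ ^ 2`, times `t²` tends to `a.re/k²`.  `Tay` with `η`: `t² |r (p + z t) - fderiv ℝ r p (z t) - Q (z t)/2| ≤ η ‖t • z t‖²` with `‖t • z t‖` bounded. -/
def S_T2 : Prop := S_Tay → S_Qf → ∀ (n : ℕ) (r : E n → ℝ) (p : E n) (l : E n →L[ℂ] ℂ) (k : ℝ) (a : ℂ) (w : E n), ContDiff ℝ 2 r → r p = 0 → Cl r p l → k ≠ 0 → l w = 1 →
  Tendsto (fun t : ℝ => t ^ 2 * r (p + (a + Complex.I * t * k)⁻¹ • w)) atTop (𝓝 ((k ^ 2)⁻¹ * (a.re + 1 / 2 * Q r p (Complex.I • w))))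

/-- **Inc.** Uses `Tay`, `Qf`, `T2`.
PROOF. Let `X = (a, a • p + w)`; `Ly l p X = l w = 1`, `ut l p k t X = (a + I t k, (a + I t k) • p + w)`.  By `T2` `t² r (p + (a + I t k)⁻¹ • w)` has a negative limit, so for large `t` `a + I t k ≠ 0` and
`r (aff (ut l p k t X)) < 0`: `ut l p k t X ∈ Cone Ω`.  The hypothesis for `-t` and `ut_ut`: `X ∈ Cone Ω`. -/
def S_Inc : Prop := S_Tay → S_Qf → S_T2 → ∀ (n : ℕ) (Ω : Set (E n)) (r : E n → ℝ) (C₀ : ℝ) (p : E n) (l : E n →L[ℂ] ℂ) (k : ℝ), Dom Ω r C₀ → p ∈ frontier Ω → Cl r p l → k ≠ 0 →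
  (∀ t : ℝ, ∀ X ∈ Cone Ω, ut l p k t X ∈ Cone Ω) →
  ∀ (a : ℂ) (w : E n), l w = 1 → a.re + 1 / 2 * Q r p (Complex.I • w) < 0 → (a, a • p + w) ∈ Cone Ω

/-- **Lev.** Uses `Qf`.
PROOF. Let `v ≠ 0`, `l v = 0` (`(l v).re = fderiv ℝ r p v = 0` and `(l v).im = -(l (I • v)).re = 0`), and suppose `2 L = Q v + Q (I • v) ≤ 0`.  Let `l w₀ = 1` (`l ≠ 0`).  `w ζ = w₀ + ζ • v`, `l (w ζ) = 1`.
`I • w ζ = I • w₀ + (I ζ) • v`.  `Qf`: `Q (I • w ζ) = Q (I • w₀) + Re (β I ζ) + Q ((I ζ) • v)` and `Q ((I ζ) • v) = Re (α (I ζ)²) + L ‖ζ‖² ≤ -Re (α ζ²)`.  So `(1/2) Q (I • w ζ) ≤ Re (h ζ)` with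
`h ζ = Q (I w₀)/2 + (β I/2) ζ - (α/2) ζ²`.  With `a ζ = -h ζ - 1`: `(a ζ).re + (1/2) Q (I • w ζ) ≤ -1 < 0`, so `(a ζ, a ζ • p + w ζ) ∈ Cone Ω` for all `ζ : ℂ`.  Hence `a ζ ≠ 0` for all `ζ`: a complex polynomial of degree
`≤ 2` without zeros is constant (if `α ≠ 0` use `exists_quadratic_eq_zero` / `IsAlgClosed`, if `α = 0`, `β ≠ 0` solve the linear equation), so `a ζ = a 0` for all `ζ`; and `‖p + (a 0)⁻¹ • (w₀ + ζ • v)‖ ≤ C₀` for all `ζ` (`bd`), impossible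
for `ζ → ∞` as `v ≠ 0`. -/
def S_Lev : Prop := S_Qf → ∀ (n : ℕ) (Ω : Set (E n)) (r : E n → ℝ) (C₀ : ℝ) (p : E n) (l : E n →L[ℂ] ℂ), Dom Ω r C₀ → Cl r p l → l ≠ 0 →
  (∀ (a : ℂ) (w : E n), l w = 1 → a.re + 1 / 2 * Q r p (Complex.I • w) < 0 → (a, a • p + w) ∈ Cone Ω) → Spc r p

/-- **MainA.** Uses all of the above.
PROOF. `Ext` gives `g, h, s, T, S, eps`.  `Adm Ω C₀ T` by `Nz`; `Adm Ω C₀ S` by `Nz` for `(s j)⁻¹ • h j` (`cone_smul`).  `(T (1, q)).1 ≠ 0`, so `aff (g j (1, q)) → aff (T (1, q))`, `p = aff (T (1, q))`.  `Inf`: `eps = 0`; so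
`s j → ∞` (`(s j)⁻¹ → 0`, positive), `T (S X) = 0 = S (T X)`.  `q' = aff (S (1, q)) ∈ closure Ω`; `S (1, q) = c • (1, q')`, `c ≠ 0` (`eq_smul_lift`), so `T (1, q') = 0`; `q'` is not in `Ω` (else `Adm` gives `(T (1, q')).1 ≠ 0`), so
`q' ∈ frontier Ω`.  Similarly `T (1, q) = c' • (1, p)`, so `S (1, p) = 0`.  `l` at `q'`, `l'` at `p` from `Lc`.  `Rk` for `T`, `q'`: `T X = (k₁ * Ly l q' X) • (1, w₁)`, and `w₁ = aff (T (1, q)) = p`.  `Rk` for `S`, `p`: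
`S X = (k₂ * Ly l' p X) • (1, w₂)`, `w₂ = aff (S (1, q)) = q'`; `(S X).1 = k₂ * Ly l' p X`, not `0` on `Cone Ω`.  `Grp` (`y = q'`, `k = k₁`): `ut l' p (k₁ * k₂) t X ∈ closure (Cone Ω)`.  `Ut`.  `Kre`: `k₁ * k₂` is real, not `0`.
`Inc`, `Lev` (`l' ≠ 0` by `Cl.ne_zero`). -/
def S_MainA : Prop := S_Lc → S_Reg → S_Ext → S_Nz → S_Opn → S_Inf → S_Ent → S_Rk → S_Bj → S_Grp → S_Ut → S_Kre → S_Tay → S_Qf → S_T2 → S_Inc → S_Lev →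
  ∀ (n : ℕ) (Ω : Set (E n)) (r : E n → ℝ) (C₀ : ℝ) (φ : ℕ → E n → E n) (g₀ : ℕ → V n ≃L[ℂ] V n) (q p : E n),
  Dom Ω r C₀ → (∀ j, Set.BijOn (φ j) Ω Ω) → (∀ j, ∀ x ∈ Ω, (g₀ j ((1 : ℂ), x)).1 ≠ 0 ∧ φ j x = aff (g₀ j ((1 : ℂ), x))) → q ∈ Ω → p ∈ frontier Ω →
  Tendsto (fun j => φ j q) atTop (𝓝 p) → Spc r p

/-! ## Strongly pseudoconvex points have type 2 -/

/-- **Fac.** PROOF. As in `MP_16b755_an/Ord.lean` (`MP16b755.tOrd`): `γ - p` is analytic at `0`; the order is exactly `m`: `natCast_le_analyticOrderAt_iff_iteratedDeriv_eq_zero` (the derivatives of order `i < m` of `γ - p` vanish,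
also `i = 0`, and the one of order `m` does not), `AnalyticAt.analyticOrderAt_eq_natCast`. -/
def S_Fac : Prop := ∀ (n : ℕ) (γ : ℂ → E n) (p : E n) (ε : ℝ) (m : ℕ), 0 < ε → DifferentiableOn ℂ γ (ball 0 ε) → γ 0 = p → 1 ≤ m →
  (∀ i : ℕ, 1 ≤ i → i < m → iteratedDeriv i γ 0 = 0) → iteratedDeriv m γ 0 ≠ 0 →
  ∃ η : ℂ → E n, AnalyticAt ℂ η 0 ∧ η 0 ≠ 0 ∧ ∀ᶠ z in 𝓝 (0 : ℂ), γ z = p + z ^ m • η z

/-- **Exo.** Uses `Tay`, `Qf`.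
PROOF. `v z = z^m • η z → 0`, `‖v z‖ ≤ (‖η 0‖ + 1) ‖z‖^m` near `0`.  `Tay` (for every `η' > 0`) and `r p = 0`, `fderiv ℝ r p (v z) = Re (l (v z))`: `r (p + v z) - Re (l (v z)) - Q (v z)/2 = o(‖z‖^(2m))`.  `Qf` (last part):
`|Q (v z) - Q (z^m • η 0)| ≤ C (‖z^m • η 0‖ + ‖v z - z^m • η 0‖) ‖v z - z^m • η 0‖ = o(‖z‖^(2m))` as `‖v z - z^m • η 0‖ = ‖z‖^m ‖η z - η 0‖`. -/
def S_Exo : Prop := S_Tay → S_Qf → ∀ (n : ℕ) (r : E n → ℝ) (p : E n) (l : E n →L[ℂ] ℂ) (η : ℂ → E n) (m : ℕ), ContDiff ℝ 2 r → r p = 0 → Cl r p l → 1 ≤ m → ContinuousAt η 0 →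
  (fun z : ℂ => r (p + z ^ m • η z)) =o[𝓝 0] (fun z : ℂ => ‖z‖ ^ (2 * m)) →
  (fun z : ℂ => (l (z ^ m • η z)).re + 1 / 2 * Q r p (z ^ m • η 0)) =o[𝓝 0] (fun z : ℂ => ‖z‖ ^ (2 * m))

/-- **Fo.** PROOF. If `c ≠ 0` choose `θ` with `θ^m = conj c / ‖c‖` (`IsAlgClosed.exists_pow_nat_eq`), `‖θ‖ = 1`, `z = t θ`, `t → 0+`: `Re (c z^m) = t^m ‖c‖`, which is not `≤ (‖c‖/2) t^m`. -/
def S_Fo : Prop := ∀ (c : ℂ) (m : ℕ), 1 ≤ m → (fun z : ℂ => (c * z ^ m).re) =o[𝓝 0] (fun z : ℂ => ‖z‖ ^ m) → c = 0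

/-- **Avg.** PROOF. `G z = H z + α z^(2m)` is holomorphic near `0`, `G 0 = 0`, `Re (G z) + L ‖z‖^(2m) = o(‖z‖^(2m))`.  If `L > 0`, then `Re (G z) ≤ -(L/2) ‖z‖^(2m) ≤ 0` near `0`, so `exp ∘ G` has a local maximum of the norm at `0`
(`Complex.norm_exp`), hence `exp (G z) = exp (G 0) = 1` near `0` (`Complex.eventually_eq_of_isLocalMax_norm`), `Re (G z) = 0`, a contradiction for a small `z ≠ 0`.  If `L < 0` the same for `-G`. -/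
def S_Avg : Prop := ∀ (H : ℂ → ℂ) (ε : ℝ) (α : ℂ) (L : ℝ) (m : ℕ), 0 < ε → DifferentiableOn ℂ H (ball 0 ε) → H 0 = 0 → 1 ≤ m →
  (fun z : ℂ => (H z).re + ((α * z ^ (2 * m)).re + L * ‖z‖ ^ (2 * m))) =o[𝓝 0] (fun z : ℂ => ‖z‖ ^ (2 * m)) → L = 0

/-- **Typ.** Uses `Tay`, `Qf`, `Fac`, `Exo`, `Fo`, `Avg`, and `MP16b755.tVan` (`MP_16b755_an/Van.lean`, import it; `StmtVan` in `MP_16b755_an/Spec.lean`).
PROOF. Suppose `iteratedFDeriv ℝ k (r ∘ γ) 0 = 0` for all `k ≤ 2 m`.  `r ∘ γ` is `C^∞` at `0` (`γ` is analytic at `0`, `AnalyticAt.contDiffAt`, `.restrict_scalars ℝ`); `tVan`: `|r (γ z)| ≤ C ‖z‖^(2m+1)`.  `Fac`: `γ z = p + z^m • η z` near `0`, `v = η 0 ≠ 0`.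
`Exo`: `Re (l (z^m • η z)) + Q (z^m • v)/2 = o(‖z‖^(2m))`.  So `Re (l v * z^m) = o(‖z‖^m)` (`l (z^m • η z) = z^m l (η z)`, `|Q (z^m • v)| = O(‖z‖^(2m))`, `η z → v`), `l v = 0` by `Fo`; so `fderiv ℝ r p v = 0`,
`fderiv ℝ r p (I • v) = Re (I l v) = 0`, and `Spc` gives `L' = Q v + Q (I • v) > 0`.  `Qf`: `Q (z^m • v) = Re (α z^(2m)) + (L'/2) ‖z‖^(2m)`.  `Avg` for `H z = l (γ z - p)` (holomorphic on a small ball, equal to `l (z^m • η z)` near `0`), `α/2`, `L = L'/4`: `L' = 0`, contradiction. -/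
def S_Typ : Prop := S_Tay → S_Qf → S_Fac → S_Exo → S_Fo → S_Avg → ∀ (n : ℕ) (r : E n → ℝ) (p : E n) (l : E n →L[ℂ] ℂ), ContDiff ℝ ((⊤ : ℕ∞) : WithTop ℕ∞) r → r p = 0 →
  Cl r p l → Spc r p → ∀ γ : ℂ → E n, (∃ ε > (0 : ℝ), DifferentiableOn ℂ γ (ball (0 : ℂ) ε)) → γ 0 = p → ∀ m : ℕ, 1 ≤ m →
  (∀ i : ℕ, 1 ≤ i → i < m → iteratedDeriv i γ 0 = 0) → iteratedDeriv m γ 0 ≠ 0 →
  ∃ k : ℕ, k ≤ 2 * m ∧ iteratedFDeriv ℝ k (r ∘ γ) 0 ≠ 0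

end Gkp
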