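import Pool.Agent.Lib.Gkp.Spec

/-!
# Module T2 of the project Gkp (MP_16b755_an)

The limit of `t² r (p + (a + i t k)⁻¹ w)` for `t → ∞`.
-/

set_option autoImplicit false

open Filter Topology Metric Asymptotics

namespace Gkp

namespace T2M

theorem limA (a : ℂ) {k : ℝ} (hk : k ≠ 0) :
    Tendsto (fun t : ℝ => (t : ℂ) * (a + Complex.I * t * k)⁻¹) atTop (𝓝 (Complex.I * k)⁻¹) := by
  have hIk : Complex.I * (k : ℂ) ≠ 0 := mul_ne_zero Complex.I_ne_zero (by exact_mod_cast hk)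
  have h1 : Tendsto (fun t : ℝ => ((t : ℂ))⁻¹) atTop (𝓝 0) := by
    have h0 := (Complex.continuous_ofReal.tendsto 0).comp (tendsto_inv_atTop_zero (𝕜 := ℝ))
    rw [Complex.ofReal_zero] at h0
    refine h0.congr fun t => ?_
    simp
  have h2 : Tendsto (fun t : ℝ => ((t : ℂ)⁻¹ * a + Complex.I * k)⁻¹) atTop
      (𝓝 (Complex.I * k)⁻¹) := by
    have h3 : Tendsto (fun t : ℝ => ((t : ℂ)⁻¹ * a + Complex.I * k)) atTop
        (𝓝 (0 * a + Complex.I * k)) := (h1.mul_const a).add_const _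
    rw [zero_mul, zero_add] at h3
    exact h3.inv₀ hIk
  refine h2.congr' ?_
  filter_upwards [eventually_gt_atTop 0] with t ht
  have ht' : (t : ℂ) ≠ 0 := by exact_mod_cast ht.ne'
  have e : a + Complex.I * t * k = (t : ℂ) * ((t : ℂ)⁻¹ * a + Complex.I * k) := by
    rw [mul_add, ← mul_assoc, mul_inv_cancel₀ ht', one_mul]
    ring
  rw [e, mul_inv, ← mul_assoc, mul_inv_cancel₀ ht', one_mul]

end T2M

theorem pT2 : S_T2 := by
  intro hTay hQf n r p l k a w hr hp hl hk hw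
  obtain ⟨q1, -, -, q4, -⟩ := hQf n r p
  have hA := T2M.limA a hk
  have hB : Tendsto (fun t : ℝ => t • ((a + Complex.I * t * k)⁻¹ • w)) atTop
      (𝓝 ((Complex.I * k)⁻¹ • w)) := by
    have h := hA.smul_const w
    refine h.congr fun t => ?_
    rw [mul_smul, Complex.coe_smul]
  have hC : Tendsto (fun t : ℝ => (a + Complex.I * t * k)⁻¹ • w) atTop (𝓝 0) := by
    have h := (tendsto_inv_atTop_zero (𝕜 := ℝ)).smul hB
    rw [zero_smul] at h
    refine h.congr' ?_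
    filter_upwards [eventually_gt_atTop 0] with t ht
    rw [smul_smul, inv_mul_cancel₀ ht.ne', one_smul]
  have hD : Tendsto (fun t : ℝ => t ^ 2 * fderiv ℝ r p ((a + Complex.I * t * k)⁻¹ • w)) atTop
      (𝓝 ((k ^ 2)⁻¹ * a.re)) := by
    have h1 : Tendsto (fun t : ℝ => Complex.normSq ((t : ℂ) * (a + Complex.I * t * k)⁻¹) * a.re)
        atTop (𝓝 (Complex.normSq (Complex.I * k)⁻¹ * a.re)) :=
      ((Complex.continuous_normSq.tendsto _).comp hA).mul_const _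
    have e1 : Complex.normSq (Complex.I * (k : ℂ))⁻¹ = (k ^ 2)⁻¹ := by
      rw [map_inv₀, map_mul, Complex.normSq_I, one_mul, Complex.normSq_ofReal, sq]
    rw [e1] at h1
    refine h1.congr fun t => ?_
    have e2 : (a + Complex.I * t * k).re = a.re := by simp
    rw [← hl, map_smul, hw, smul_eq_mul, mul_one, Complex.inv_re, map_mul, Complex.normSq_ofReal,
      map_inv₀, e2]
    ring
  have hE : Tendsto (fun t : ℝ => t ^ 2 * (1 / 2 * Q r p ((a + Complex.I * t * k)⁻¹ • w))) atTop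
      (𝓝 ((k ^ 2)⁻¹ * (1 / 2 * Q r p (Complex.I • w)))) := by
    have h1 := (q4.tendsto ((Complex.I * k)⁻¹ • w)).comp hB
    have e1 : (Complex.I * (k : ℂ))⁻¹ • w = (-(k⁻¹) : ℝ) • (Complex.I • w) := by
      rw [← Complex.coe_smul, smul_smul]
      congr 1
      push_cast
      rw [mul_inv, Complex.inv_I]
      ring
    have e2 : Q r p ((Complex.I * (k : ℂ))⁻¹ • w) = (k ^ 2)⁻¹ * Q r p (Complex.I • w) := by
      rw [e1, q1, neg_sq, inv_pow]
    rw [e2] at h1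
    have h2 := h1.mul_const (1 / 2)
    have e3 : (k ^ 2)⁻¹ * Q r p (Complex.I • w) * (1 / 2) =
        (k ^ 2)⁻¹ * (1 / 2 * Q r p (Complex.I • w)) := by ring
    rw [e3] at h2
    refine h2.congr fun t => ?_
    have e4 := q1 t ((a + Complex.I * t * k)⁻¹ • w)
    simp only [Function.comp_apply]
    rw [e4]
    ring
  have hF : Tendsto (fun t : ℝ => t ^ 2 * (r (p + (a + Complex.I * t * k)⁻¹ • w) - r p -
      fderiv ℝ r p ((a + Complex.I * t * k)⁻¹ • w) -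
      1 / 2 * Q r p ((a + Complex.I * t * k)⁻¹ • w))) atTop (𝓝 0) := by
    rw [NormedAddGroup.tendsto_nhds_zero]
    intro ε hε
    obtain ⟨M, hM⟩ : ∃ M : ℝ, M = ‖(Complex.I * (k : ℂ))⁻¹ • w‖ := ⟨_, rfl⟩
    have hM0 : 0 ≤ M := hM ▸ norm_nonneg _
    obtain ⟨ρ, hρ, hT⟩ := hTay n r p hr (ε / (2 * (M + 1) ^ 2)) (by positivity)
    have hn := hB.norm
    rw [← hM] at hn
    have h1 : ∀ᶠ t : ℝ in atTop, ‖t • ((a + Complex.I * t * k)⁻¹ • w)‖ < M + 1 :=
      hn.eventually (gt_mem_nhds (by linarith))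
    have h2 : ∀ᶠ t : ℝ in atTop, ‖(a + Complex.I * t * k)⁻¹ • w‖ < ρ := by
      have h3 := hC.norm
      rw [norm_zero] at h3
      exact h3.eventually (gt_mem_nhds hρ)
    filter_upwards [h1, h2] with t ht1 ht2
    have h3 := hT _ ht2
    rw [norm_mul, Real.norm_eq_abs, Real.norm_eq_abs, abs_of_nonneg (sq_nonneg t)]
    have h4 : t ^ 2 * |r (p + (a + Complex.I * t * k)⁻¹ • w) - r p -
        fderiv ℝ r p ((a + Complex.I * t * k)⁻¹ • w) -
        1 / 2 * Q r p ((a + Complex.I * t * k)⁻¹ • w)| ≤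
        t ^ 2 * (ε / (2 * (M + 1) ^ 2) * ‖(a + Complex.I * t * k)⁻¹ • w‖ ^ 2) :=
      mul_le_mul_of_nonneg_left h3 (sq_nonneg t)
    have h5 : t ^ 2 * (ε / (2 * (M + 1) ^ 2) * ‖(a + Complex.I * t * k)⁻¹ • w‖ ^ 2) =
        ε / (2 * (M + 1) ^ 2) * ‖t • ((a + Complex.I * t * k)⁻¹ • w)‖ ^ 2 := by
      rw [norm_smul t, Real.norm_eq_abs, mul_pow, sq_abs]
      ring
    have h6 : ‖t • ((a + Complex.I * t * k)⁻¹ • w)‖ ^ 2 ≤ (M + 1) ^ 2 :=
      pow_le_pow_left₀ (norm_nonneg _) ht1.le 2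
    have h7 : ε / (2 * (M + 1) ^ 2) * ‖t • ((a + Complex.I * t * k)⁻¹ • w)‖ ^ 2 ≤
        ε / (2 * (M + 1) ^ 2) * (M + 1) ^ 2 :=
      mul_le_mul_of_nonneg_left h6 (by positivity)
    have h8 : ε / (2 * (M + 1) ^ 2) * (M + 1) ^ 2 = ε / 2 := by
      have : M + 1 ≠ 0 := by linarith
      field_simp
    linarith
  have h := (hD.add hE).add hF
  have e : (k ^ 2)⁻¹ * a.re + (k ^ 2)⁻¹ * (1 / 2 * Q r p (Complex.I • w)) + 0 =
      (k ^ 2)⁻¹ * (a.re + 1 / 2 * Q r p (Complex.I • w)) := by ring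
  rw [e] at h
  refine h.congr fun t => ?_
  rw [hp]
  ring

end Gkp
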