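import Pool.Agent.Lib.Gkp.Spec

/-!
# Projective automorphisms of smoothly bounded domains (MP_16b755_an), Tay: second order Taylor formula
-/

set_option autoImplicit false

open Filter Topology Metric Asymptotics

namespace Gkp

theorem pTay : S_Tay := by
  intro n Φ c hΦ0 η hη
  have hΦ : ContDiffAt ℝ 2 Φ c := hΦ0.contDiffAt
  set L := fderiv ℝ Φ c with hL
  set B := fderiv ℝ (fderiv ℝ Φ) c with hB
  have hsymm : ∀ v w, B v w = B w v := by
    have h1 : IsSymmSndFDerivAt ℝ Φ c := hΦ.isSymmSndFDerivAt (by simp)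
    exact fun v w => h1 v w
  have h1 : ContDiffAt ℝ 1 (fderiv ℝ Φ) c := hΦ.fderiv_right (by norm_num)
  have h2 : HasFDerivAt (fderiv ℝ Φ) B c := (h1.differentiableAt (by norm_num)).hasFDerivAt
  have h3 : ∀ᶠ x in 𝓝 c, DifferentiableAt ℝ Φ x := by
    filter_upwards [hΦ.eventually (by norm_num)] with x hx
    exact hx.differentiableAt (by norm_num)
  have h4 : ∀ᶠ x in 𝓝 c, ‖fderiv ℝ Φ x - L - B (x - c)‖ ≤ η * ‖x - c‖ := by
    have := h2.isLittleO.def hη
    exact this
  obtain ⟨r, hr, hball⟩ := Metric.eventually_nhds_iff_ball.1 (h3.and h4)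
  refine ⟨r, hr, fun v hv => ?_⟩
  set f : E n → ℝ := fun v => Φ (c + v) - Φ c - L v - 1 / 2 * B v v with hf
  have hmem : ∀ x ∈ closedBall (0 : E n) ‖v‖, c + x ∈ ball c r := by
    intro x hx
    rw [mem_closedBall, dist_zero_right] at hx
    rw [mem_ball, dist_self_add_left]
    linarith
  have hder : ∀ x ∈ closedBall (0 : E n) ‖v‖, HasFDerivAt f (fderiv ℝ Φ (c + x) - L - B x) x := by
    intro x hx
    have e1 : HasFDerivAt (fun v => Φ (c + v)) (fderiv ℝ Φ (c + x)) x := by
      have a1 : HasFDerivAt Φ (fderiv ℝ Φ (c + x)) (c + x) := (hball _ (hmem x hx)).1.hasFDerivAt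
      have a2 : HasFDerivAt (fun v : E n => c + v) (ContinuousLinearMap.id ℝ (E n)) x :=
        (hasFDerivAt_id x).const_add c
      have a3 := a1.comp x a2
      rwa [ContinuousLinearMap.comp_id] at a3
    have e2 : HasFDerivAt (fun v : E n => B v v)
        ((B x).comp (ContinuousLinearMap.id ℝ (E n)) + B.flip x) x :=
      B.hasFDerivAt.clm_apply (hasFDerivAt_id x)
    have e3 := ((e1.sub_const (Φ c)).sub L.hasFDerivAt).sub (e2.const_mul (1 / 2))
    refine e3.congr_fderiv ?_
    ext w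
    simp only [ContinuousLinearMap.sub_apply, ContinuousLinearMap.smul_apply,
      ContinuousLinearMap.add_apply, ContinuousLinearMap.comp_id, ContinuousLinearMap.flip_apply,
      smul_eq_mul]
    rw [hsymm w x]
    ring
  have hbound : ∀ x ∈ closedBall (0 : E n) ‖v‖,
      ‖fderiv ℝ Φ (c + x) - L - B x‖ ≤ η * ‖v‖ := by
    intro x hx
    have a1 := (hball _ (hmem x hx)).2
    rw [add_sub_cancel_left] at a1
    refine a1.trans ?_
    rw [mem_closedBall, dist_zero_right] at hx
    exact mul_le_mul_of_nonneg_left hx hη.le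
  have key := (convex_closedBall (0 : E n) ‖v‖).norm_image_sub_le_of_norm_hasFDerivWithin_le
    (fun x hx => (hder x hx).hasFDerivWithinAt) hbound
    (mem_closedBall_self (norm_nonneg v)) (show v ∈ closedBall (0 : E n) ‖v‖ by simp)
  have hf0 : f 0 = 0 := by simp [hf]
  rw [hf0, sub_zero, sub_zero, Real.norm_eq_abs] at key
  have : |f v| ≤ η * ‖v‖ ^ 2 := by
    calc |f v| ≤ η * ‖v‖ * ‖v‖ := key
      _ = η * ‖v‖ ^ 2 := by ring
  exact this

end Gkp
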