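import Pool.Agent.Lib.Gkp.Spec
import Pool.Agent.Lib.MP_16b755_an.Van

/-!
# Strongly pseudoconvex points have type 2 (MP_16b755_an, project Gkp)
-/

set_option autoImplicit false

open Filter Topology Metric Asymptotics

namespace Gkp

theorem pTyp : S_Typ := by
  intro hTay hQf hFac hExo hFo hAvg n r p l hr hp hCl hSpc γ hγε hγ0 m hm hlow hne
  obtain ⟨ε, hε, hγ⟩ := hγε
  by_contra hcon
  push Not at hcon
  have hγan : AnalyticAt ℂ γ 0 := hγ.analyticAt (ball_mem_nhds 0 hε)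
  have hγc : ContDiffAt ℝ ((⊤ : ℕ∞) : WithTop ℕ∞) γ 0 :=
    (hγan.contDiffAt (n := ((⊤ : ℕ∞) : WithTop ℕ∞))).restrict_scalars ℝ
  have hrγ : ContDiffAt ℝ ((⊤ : ℕ∞) : WithTop ℕ∞) (r ∘ γ) 0 := hr.contDiffAt.comp 0 hγc
  obtain ⟨C, δ, hC, hδ, hb⟩ := MP16b755.tVan (r ∘ γ) (2 * m) hrγ hcon
  obtain ⟨η, hη, hη0, hηe⟩ := hFac n γ p ε m hε hγ hγ0 hm hlow hne
  have hr2 : ContDiff ℝ 2 r := by exact_mod_cast contDiff_infty.1 hr 2
  have hηc : ContinuousAt η 0 := hη.continuousAt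
  have hnrm : Tendsto (fun z : ℂ => ‖z‖) (𝓝 0) (𝓝 0) := by
    have := (continuous_norm (E := ℂ)).tendsto (0 : ℂ)
    rwa [norm_zero] at this
  -- powers
  have hpow : (fun z : ℂ => ‖z‖ ^ (2 * m + 1)) =o[𝓝 0] (fun z : ℂ => ‖z‖ ^ (2 * m)) := by
    have h := (isLittleO_pow_pow (𝕜 := ℝ) (m := 2 * m) (n := 2 * m + 1) (by omega)).comp_tendsto hnrm
    exact h
  have hpow2 : (fun z : ℂ => ‖z‖ ^ (2 * m)) =o[𝓝 0] (fun z : ℂ => ‖z‖ ^ m) := by
    have h := (isLittleO_pow_pow (𝕜 := ℝ) (m := m) (n := 2 * m) (by omega)).comp_tendsto hnrm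
    exact h
  have h1 : (fun z : ℂ => r (p + z ^ m • η z)) =o[𝓝 0] (fun z : ℂ => ‖z‖ ^ (2 * m)) := by
    refine IsBigO.trans_isLittleO (IsBigO.of_bound C ?_) hpow
    filter_upwards [hηe, ball_mem_nhds (0 : ℂ) hδ] with z hz hzδ
    have h := hb z (mem_ball_zero_iff.1 hzδ)
    rw [← hz, Real.norm_eq_abs, norm_pow, norm_norm]
    exact h
  have h2 := hExo hTay hQf n r p l η m hr2 hp hCl hm hηc h1
  obtain ⟨hQ1, hQ2, hQ3, hQ4, hQ5⟩ := hQf n r p
  obtain ⟨α, hα⟩ := hQ2 (η 0)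
  set L : ℝ := Q r p (η 0) + Q r p (Complex.I • η 0) with hL
  have hQz : ∀ z : ℂ, Q r p (z ^ m • η 0) = (α * z ^ (2 * m)).re + L / 2 * ‖z‖ ^ (2 * m) := by
    intro z
    rw [hα (z ^ m), norm_pow]
    congr 1
    · congr 2
      rw [← pow_mul, mul_comm m 2]
    · rw [← pow_mul, mul_comm m 2]
  have h3 : (fun z : ℂ => 1 / 2 * Q r p (z ^ m • η 0)) =O[𝓝 0] (fun z : ℂ => ‖z‖ ^ (2 * m)) := by
    refine IsBigO.of_bound (‖α‖ + |L|) (Eventually.of_forall fun z => ?_)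
    rw [hQz z, Real.norm_eq_abs, norm_pow, norm_norm]
    have e1 : |(α * z ^ (2 * m)).re| ≤ ‖α‖ * ‖z‖ ^ (2 * m) := by
      refine (Complex.abs_re_le_norm _).trans ?_
      rw [norm_mul, norm_pow]
    have e2 : 0 ≤ ‖z‖ ^ (2 * m) := by positivity
    have e3 : |L / 2 * ‖z‖ ^ (2 * m)| ≤ |L| * ‖z‖ ^ (2 * m) := by
      rw [abs_mul, abs_div, abs_of_nonneg e2, abs_two]
      have := mul_nonneg (abs_nonneg L) e2
      nlinarith
    have e4 := abs_add_le (α * z ^ (2 * m)).re (L / 2 * ‖z‖ ^ (2 * m))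
    rw [abs_mul, abs_of_pos (by norm_num : (0 : ℝ) < 1 / 2)]
    have e5 := abs_nonneg ((α * z ^ (2 * m)).re + L / 2 * ‖z‖ ^ (2 * m))
    linarith
  have h4 : (fun z : ℂ => (l (z ^ m • η z)).re) =o[𝓝 0] (fun z : ℂ => ‖z‖ ^ m) := by
    have e1 : (fun z : ℂ => (l (z ^ m • η z)).re) =O[𝓝 0] (fun z : ℂ => ‖z‖ ^ (2 * m)) := by
      have := h2.isBigO.sub h3
      refine this.congr_left fun z => ?_
      ring
    exact e1.trans_isLittleO hpow2
  have h5 : (fun z : ℂ => (l (η 0) * z ^ m).re) =o[𝓝 0] (fun z : ℂ => ‖z‖ ^ m) := by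
    have e1 : (fun z : ℂ => (z ^ m * l (η z - η 0)).re) =o[𝓝 0] (fun z : ℂ => ‖z‖ ^ m) := by
      rw [isLittleO_iff]
      intro c hc
      have e2 : Tendsto (fun z : ℂ => ‖l (η z - η 0)‖) (𝓝 0) (𝓝 0) := by
        have e3 : ContinuousAt (fun z : ℂ => ‖l (η z - η 0)‖) 0 :=
          (l.continuous.continuousAt.comp (hηc.sub continuousAt_const)).norm
        have e4 := e3.tendsto
        simpa using e4
      filter_upwards [e2.eventually_lt_const hc] with z hz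
      rw [Real.norm_eq_abs, norm_pow, norm_norm]
      refine (Complex.abs_re_le_norm _).trans ?_
      rw [norm_mul, norm_pow, mul_comm]
      exact mul_le_mul_of_nonneg_right hz.le (by positivity)
    refine (h4.sub e1).congr_left fun z => ?_
    rw [← Complex.sub_re]
    congr 1
    rw [map_smul, smul_eq_mul, map_sub]
    ring
  have h6 : l (η 0) = 0 := hFo _ m hm h5
  have h7 : 0 < L := by
    refine hSpc (η 0) hη0 ?_ ?_
    · rw [← hCl (η 0), h6, Complex.zero_re]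
    · rw [← hCl (Complex.I • η 0), map_smul, h6, smul_zero, Complex.zero_re]
  have h8 : L / 4 = 0 := by
    refine hAvg (fun z => l (γ z - p)) ε (α / 2) (L / 4) m hε ?_ ?_ hm ?_
    · exact l.differentiable.comp_differentiableOn (hγ.sub_const p)
    · simp [hγ0]
    · refine h2.congr' ?_ EventuallyEq.rfl
      filter_upwards [hηe] with z hz
      rw [hz, add_sub_cancel_left, hQz z]
      congr 1
      have e1 : (α / 2 * z ^ (2 * m)).re = 1 / 2 * (α * z ^ (2 * m)).re := by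
        have : α / 2 * z ^ (2 * m) = ((1 / 2 : ℝ) : ℂ) * (α * z ^ (2 * m)) := by
          push_cast
          ring
        rw [this, Complex.re_ofReal_mul]
      rw [e1]
      ring
  linarith

end Gkp
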