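import Pool.Agent.Lib.Gkp.Spec

/-!
# MP_16b755_an, Gkp: the maps `u_t` preserve the cone
-/

set_option autoImplicit false

open Filter Topology Metric Asymptotics

namespace Gkp

theorem pUt : S_Ut := by
  intro hReg hOpn n Ω r C₀ p l k hD hcl t
  have key : ∀ X ∈ Cone Ω, (ut l p k t X).1 ≠ 0 ∧ aff (ut l p k t X) ∈ closure Ω := by
    intro X hX
    set Y : V n := ut l p k t X with hY
    have hYc : Y ∈ closure (Cone Ω) := hcl t X hX
    have h1 : ‖Y.2‖ ≤ C₀ * ‖Y.1‖ := by
      have hclosed : IsClosed {Z : V n | ‖Z.2‖ ≤ C₀ * ‖Z.1‖} :=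
        isClosed_le continuous_snd.norm (continuous_const.mul continuous_fst.norm)
      have hsub : Cone Ω ⊆ {Z : V n | ‖Z.2‖ ≤ C₀ * ‖Z.1‖} := by
        intro Z hZ
        have h2 := hD.bd _ hZ.2
        rw [aff, norm_smul, norm_inv] at h2
        have h3 : 0 < ‖Z.1‖ := norm_pos_iff.2 hZ.1
        rwa [inv_mul_le_iff₀ h3, mul_comm] at h2
      exact closure_minimal hsub hclosed hYc
    have h2 : Y ≠ 0 := by
      intro h0
      have h3 := ut_ut l p k t X
      rw [← hY, h0] at h3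
      have h4 : ut l p k (-t) (0 : V n) = 0 := by simp [ut, Ly]
      rw [h4] at h3
      exact hX.1 (by rw [← h3]; rfl)
    have h3 : Y.1 ≠ 0 := by
      intro h0
      rw [h0, norm_zero, mul_zero] at h1
      exact h2 (Prod.ext h0 (norm_le_zero_iff.1 h1))
    refine ⟨h3, ?_⟩
    have h4 : ContinuousWithinAt (aff (n := n)) (Cone Ω) Y :=
      (continuousAt_aff h3).continuousWithinAt
    exact h4.mem_closure hYc fun Z hZ => hZ.2
  intro X hX
  refine ⟨(key X hX).1, ?_⟩
  refine hOpn hReg n Ω r C₀ (ut l p k t) (ut l p k (-t)) hD ?_ ?_ (ut_ut l p k t) key X hX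
  · unfold ut Ly
    fun_prop
  · intro Z
    have h1 := ut_ut l p k (-t) Z
    rwa [neg_neg] at h1

end Gkp
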